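import Pool.Agent.U874.And.Det

/-! # A functional of the potential in a box that detects flat ground states -/

set_option autoImplicit false
set_option linter.unusedSectionVars false

open Filter Topology

namespace Pool.Agent.U874.Tr

open Pool.Agent.U874.And

variable {d : ℕ}

/-- the cutoff -/
noncomputable def ct (R : ℕ) (x : Z d) : ℝ := bump R (0 : Z d) x

/-- admissible multipliers -/
def TG (d : ℕ) (M : ℝ) : Type := {g : Z d → ℝ // ∀ x, 1 ≤ g x ∧ g x ≤ M}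

noncomputable def kin (R : ℕ) (g : Z d → ℝ) : ℝ :=
  ∑ x ∈ box R (0 : Z d), (ct R x * g x) * HopZ 0 (0 : Z d → ℝ) (fun y => ct R y * g y) x

noncomputable def nn (R : ℕ) (g : Z d → ℝ) : ℝ := ∑ x ∈ box R (0 : Z d), (ct R x * g x) ^ 2

noncomputable def bb (d R : ℕ) : ℝ := ∑ x ∈ box R (0 : Z d), ct R x ^ 2

noncomputable def rq (lam : ℝ) (R : ℕ) (V g : Z d → ℝ) : ℝ :=
  (kin R g + lam * ∑ x ∈ box R (0 : Z d), V x * (ct R x * g x) ^ 2) / nn R g

noncomputable def FF (lam M : ℝ) (R : ℕ) (V : Z d → ℝ) : ℝ := ⨅ g : TG d M, rq lam R V g.1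

/-- lower and upper weights -/
noncomputable def mm (M : ℝ) (R : ℕ) (x : Z d) : ℝ := ct R x ^ 2 / (M ^ 2 * bb d R)

noncomputable def rr (M : ℝ) (R : ℕ) (x : Z d) : ℝ := M ^ 2 * ct R x ^ 2 / bb d R

lemma tsq (R : ℕ) : (R : ℝ) ^ 3 ≤ 12 * ∑ k ∈ II R, (tent R k : ℝ) ^ 2 := by
  have h2 : (∑ k ∈ II R, (tent R k : ℝ)) ^ 2 ≤ (2 * R + 1) * ∑ k ∈ II R, (tent R k : ℝ) ^ 2 := by
    have h3 := sq_sum_le_card_mul_sum_sq (s := II R) (f := fun k => (tent R k : ℝ))
    have h4 : ((II R).card : ℝ) = 2 * R + 1 := by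
      unfold II
      rw [Int.card_Icc]
      have : ((R : ℤ) + 1 - -(R : ℤ)).toNat = 2 * R + 1 := by omega
      rw [this]; push_cast; ring
    rw [h4] at h3
    exact h3
  have h5 : (R : ℝ) ^ 2 ≤ 2 * ∑ k ∈ II R, (tent R k : ℝ) := by
    have := tent_sum R
    exact_mod_cast this
  rcases Nat.eq_zero_or_pos R with h | h
  · subst h
    have : 0 ≤ ∑ k ∈ II 0, (tent 0 k : ℝ) ^ 2 := Finset.sum_nonneg fun _ _ => sq_nonneg _
    norm_num
    exact this
  · have hR : (1 : ℝ) ≤ R := by exact_mod_cast h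
    have h6 : ((R : ℝ) ^ 2) ^ 2 ≤ (2 * ∑ k ∈ II R, (tent R k : ℝ)) ^ 2 := by
      gcongr
    have h7 : 0 ≤ ∑ k ∈ II R, (tent R k : ℝ) ^ 2 := Finset.sum_nonneg fun _ _ => sq_nonneg _
    have h8 : (R : ℝ) * R ^ 3 ≤ R * (12 * ∑ k ∈ II R, (tent R k : ℝ) ^ 2) := by
      nlinarith
    exact le_of_mul_le_mul_left h8 (by linarith)

lemma bb_eq (d R : ℕ) : bb d R = (∑ k ∈ II R, (tent R k : ℝ) ^ 2) ^ d := by
  unfold bb ct bump
  have h := sum_box R (0 : Z d) (fun _ k => (tent R k : ℝ) ^ 2)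
  have e : ∀ x : Z d, (∏ i, (tent R (x i - (0 : Z d) i) : ℝ)) ^ 2 =
      ∏ i, (tent R (x i - (0 : Z d) i) : ℝ) ^ 2 := fun x => by rw [Finset.prod_pow]
  rw [Finset.sum_congr rfl fun x _ => e x, h]
  simp

lemma tsq_pos (R : ℕ) (hR : 1 ≤ R) : 0 < ∑ k ∈ II R, (tent R k : ℝ) ^ 2 := by
  have h := tsq R
  have : (1 : ℝ) ≤ R := by exact_mod_cast hR
  have h2 : (1 : ℝ) ≤ (R : ℝ) ^ 3 := one_le_pow₀ this
  linarith

lemma bb_pos (d R : ℕ) (hR : 1 ≤ R) : 0 < bb d R := by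
  rw [bb_eq]
  exact pow_pos (tsq_pos R hR) d

lemma ct_zero (R : ℕ) (x : Z d) (hx : x ∉ box R (0 : Z d)) : ct R x = 0 := by
  rw [mem_box] at hx
  push Not at hx
  obtain ⟨i, hi⟩ := hx
  exact bump_zero R 0 x ⟨i, hi.le⟩

lemma ct_nonneg (R : ℕ) (x : Z d) : 0 ≤ ct R x := bump_nonneg R 0 x

section
variable {M : ℝ} (hM : 1 ≤ M) {R : ℕ} (hR : 1 ≤ R) {g : Z d → ℝ} (hg : ∀ x, 1 ≤ g x ∧ g x ≤ M)
include hM hR hg

lemma sq_low (x : Z d) : ct R x ^ 2 ≤ (ct R x * g x) ^ 2 := by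
  have h1 := (hg x).1
  have h2 := ct_nonneg R x
  rw [mul_pow]
  have : 1 ≤ g x ^ 2 := one_le_pow₀ h1
  nlinarith [sq_nonneg (ct R x)]

lemma sq_up (x : Z d) : (ct R x * g x) ^ 2 ≤ M ^ 2 * ct R x ^ 2 := by
  have h1 := (hg x).1
  have h2 := (hg x).2
  rw [mul_pow]
  have : g x ^ 2 ≤ M ^ 2 := by gcongr
  nlinarith [sq_nonneg (ct R x)]

lemma nn_low : bb d R ≤ nn R g := Finset.sum_le_sum fun x _ => sq_low hM hR hg x

lemma nn_up : nn R g ≤ M ^ 2 * bb d R := by
  unfold nn bb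
  rw [Finset.mul_sum]
  exact Finset.sum_le_sum fun x _ => sq_up hM hR hg x

lemma nn_pos : 0 < nn R g := lt_of_lt_of_le (bb_pos d R hR) (nn_low hM hR hg)

lemma w_low (x : Z d) : mm M R x ≤ (ct R x * g x) ^ 2 / nn R g := by
  unfold mm
  have h1 := sq_low hM hR hg x
  have h2 := nn_up hM hR hg
  have h3 := nn_pos hM hR hg
  exact div_le_div₀ (sq_nonneg _) h1 h3 h2

lemma w_up (x : Z d) : (ct R x * g x) ^ 2 / nn R g ≤ rr M R x := by
  unfold rr
  exact div_le_div₀ (by positivity) (sq_up hM hR hg x) (bb_pos d R hR) (nn_low hM hR hg)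

lemma rq_diff (lam : ℝ) (V W : Z d → ℝ) : rq lam R W g - rq lam R V g =
    lam * ∑ x ∈ box R (0 : Z d), (W x - V x) * ((ct R x * g x) ^ 2 / nn R g) := by
  have h3 := nn_pos hM hR hg
  unfold rq
  rw [← sub_div]
  have e : kin R g + lam * ∑ x ∈ box R (0 : Z d), W x * (ct R x * g x) ^ 2 -
      (kin R g + lam * ∑ x ∈ box R (0 : Z d), V x * (ct R x * g x) ^ 2) =
      lam * ∑ x ∈ box R (0 : Z d), (W x - V x) * (ct R x * g x) ^ 2 := by
    rw [add_sub_add_left_eq_sub, ← mul_sub, ← Finset.sum_sub_distrib]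
    congr 1
    exact Finset.sum_congr rfl fun x _ => by ring
  rw [e, mul_div_assoc, Finset.sum_div]
  congr 1
  exact Finset.sum_congr rfl fun x _ => by ring

lemma kin_nonneg : 0 ≤ kin R g := by
  have h := form_free (fun x => ct R x * g x) (box R (0 : Z d))
    (fun x hx => by rw [ct_zero R x hx, zero_mul])
  unfold kin
  rw [h]
  unfold DF
  exact Finset.sum_nonneg fun i _ => tsum_nonneg fun x => by positivity

lemma rq_low (lam : ℝ) (hlam : 0 ≤ lam) (V : Z d → ℝ) :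
    -(lam * ∑ x ∈ box R (0 : Z d), |V x| * rr M R x) ≤ rq lam R V g := by
  have h3 := nn_pos hM hR hg
  have h0 : 0 ≤ rq lam R (0 : Z d → ℝ) g := by
    unfold rq
    have := kin_nonneg hM hR hg
    simp only [Pi.zero_apply, zero_mul, Finset.sum_const_zero, mul_zero, add_zero]
    positivity
  have h1 := rq_diff hM hR hg lam (0 : Z d → ℝ) V
  have h2 : -(∑ x ∈ box R (0 : Z d), |V x| * rr M R x) ≤
      ∑ x ∈ box R (0 : Z d), (V x - (0 : Z d → ℝ) x) * ((ct R x * g x) ^ 2 / nn R g) := by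
    rw [← Finset.sum_neg_distrib]
    refine Finset.sum_le_sum fun x _ => ?_
    have h4 := w_up hM hR hg x
    have h5 : 0 ≤ (ct R x * g x) ^ 2 / nn R g := by positivity
    have h6 := neg_abs_le (V x)
    have h7 := abs_nonneg (V x)
    simp only [Pi.zero_apply, sub_zero]
    nlinarith
  have h4 := mul_le_mul_of_nonneg_left h2 hlam
  linarith

end

section
variable {M : ℝ} (hM : 1 ≤ M) {R : ℕ} (hR : 1 ≤ R) {lam : ℝ} (hlam : 0 ≤ lam)
include hM hR hlam

lemma nonempty_TG : Nonempty (TG d M) := ⟨⟨fun _ => 1, fun _ => ⟨le_rfl, hM⟩⟩⟩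

lemma bdd (V : Z d → ℝ) : BddBelow (Set.range fun g : TG d M => rq lam R V g.1) :=
  ⟨_, by rintro _ ⟨g, rfl⟩; exact rq_low hM hR g.2 lam hlam V⟩

/-- Lipschitz bound -/
lemma FF_lip (V W : Z d → ℝ) : FF lam M R W - FF lam M R V ≤
    lam * ∑ x ∈ box R (0 : Z d), |W x - V x| * rr M R x := by
  have := nonempty_TG (d := d) hM hR hlam
  have h : FF lam M R W - lam * ∑ x ∈ box R (0 : Z d), |W x - V x| * rr M R x ≤ FF lam M R V := by
    refine le_ciInf fun g => ?_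
    have h1 : FF lam M R W ≤ rq lam R W g.1 := ciInf_le (bdd hM hR hlam W) g
    have h2 := rq_diff hM hR g.2 lam V W
    have h3 : ∑ x ∈ box R (0 : Z d), (W x - V x) * ((ct R x * g.1 x) ^ 2 / nn R g.1) ≤
        ∑ x ∈ box R (0 : Z d), |W x - V x| * rr M R x := by
      refine Finset.sum_le_sum fun x _ => ?_
      have h4 := w_up hM hR g.2 x
      have h5 : 0 ≤ (ct R x * g.1 x) ^ 2 / nn R g.1 :=
        div_nonneg (sq_nonneg _) (nn_pos hM hR g.2).le
      have h6 := le_abs_self (W x - V x)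
      have h7 := abs_nonneg (W x - V x)
      nlinarith
    have h4 := mul_le_mul_of_nonneg_left h3 hlam
    linarith
  linarith

/-- monotonicity, quantitative -/
lemma FF_mono (V W : Z d → ℝ) (h : ∀ x ∈ box R (0 : Z d), V x ≤ W x) :
    lam * ∑ x ∈ box R (0 : Z d), (W x - V x) * mm M R x ≤ FF lam M R W - FF lam M R V := by
  have := nonempty_TG (d := d) hM hR hlam
  have h : FF lam M R V + lam * ∑ x ∈ box R (0 : Z d), (W x - V x) * mm M R x ≤
      FF lam M R W := by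
    refine le_ciInf fun g => ?_
    have h1 : FF lam M R V ≤ rq lam R V g.1 := ciInf_le (bdd hM hR hlam V) g
    have h2 := rq_diff hM hR g.2 lam V W
    have h3 : ∑ x ∈ box R (0 : Z d), (W x - V x) * mm M R x ≤
        ∑ x ∈ box R (0 : Z d), (W x - V x) * ((ct R x * g.1 x) ^ 2 / nn R g.1) :=
      Finset.sum_le_sum fun x hx => mul_le_mul_of_nonneg_left (w_low hM hR g.2 x)
        (sub_nonneg.2 (h x hx))
    have h4 := mul_le_mul_of_nonneg_left h3 hlam
    linarith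
  linarith

lemma FF_abs (V W : Z d → ℝ) : |FF lam M R W - FF lam M R V| ≤
    lam * ∑ x ∈ box R (0 : Z d), |W x - V x| * rr M R x := by
  rw [abs_le]
  refine ⟨?_, FF_lip hM hR hlam V W⟩
  have := FF_lip hM hR hlam W V
  simp only [abs_sub_comm (V _) (W _)] at this
  linarith

lemma FF_congr (V W : Z d → ℝ) (h : ∀ x ∈ box R (0 : Z d), V x = W x) :
    FF lam M R V = FF lam M R W := by
  have h1 := FF_abs hM hR hlam V W
  have h2 : ∑ x ∈ box R (0 : Z d), |W x - V x| * rr M R x = 0 :=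
    Finset.sum_eq_zero fun x hx => by rw [h x hx, sub_self, abs_zero, zero_mul]
  rw [h2, mul_zero] at h1
  have := abs_nonpos_iff.1 h1
  linarith

end

/-- sum of the upper weights -/
lemma rr_sum (M : ℝ) (R : ℕ) (hR : 1 ≤ R) : ∑ x ∈ box R (0 : Z d), rr M R x = M ^ 2 := by
  unfold rr
  have h := bb_pos d R hR
  rw [← Finset.sum_div, ← Finset.mul_sum]
  change M ^ 2 * bb d R / bb d R = _
  field_simp

lemma rr_nonneg (M : ℝ) (R : ℕ) (hR : 1 ≤ R) (x : Z d) : 0 ≤ rr M R x := by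
  unfold rr
  have h := bb_pos d R hR
  positivity

lemma mm_nonneg (M : ℝ) (R : ℕ) (hR : 1 ≤ R) (x : Z d) : 0 ≤ mm M R x := by
  unfold mm
  have h := bb_pos d R hR
  positivity

/-- the sum of the squares of the lower weights -/
lemma mm_sq (M : ℝ) (hM : 1 ≤ M) (R : ℕ) (hR : 1 ≤ R) :
    1 / (M ^ 4 * (2 * (R : ℝ) + 1) ^ d) ≤ ∑ x ∈ box R (0 : Z d), mm M R x ^ 2 := by
  have hb := bb_pos d R hR
  have h1 := sq_sum_le_card_mul_sum_sq (s := box R (0 : Z d)) (f := fun x => mm M R x)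
  have h2 : ∑ x ∈ box R (0 : Z d), mm M R x = 1 / M ^ 2 := by
    unfold mm
    rw [← Finset.sum_div]
    change bb d R / (M ^ 2 * bb d R) = _
    field_simp
  rw [h2, card_box] at h1
  push_cast at h1
  rw [div_le_iff₀ (by positivity)]
  have h3 : (1 / M ^ 2) ^ 2 * M ^ 4 = 1 := by field_simp
  calc (1 : ℝ) = (1 / M ^ 2) ^ 2 * M ^ 4 := h3.symm
    _ ≤ ((2 * (R : ℝ) + 1) ^ d * ∑ x ∈ box R (0 : Z d), mm M R x ^ 2) * M ^ 4 := by gcongr
    _ = _ := by ring


lemma hop_split (lam : ℝ) (V f : Z d → ℝ) (x : Z d) :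
    HopZ lam V f x = HopZ 0 (0 : Z d → ℝ) f x + lam * V x * f x := by
  unfold HopZ
  simp

lemma rq_eq (lam : ℝ) (R : ℕ) (V g : Z d → ℝ) : rq lam R V g =
    (∑ x ∈ box R (0 : Z d), (ct R x * g x) * HopZ lam V (fun y => ct R y * g y) x) / nn R g := by
  unfold rq kin
  congr 1
  rw [Finset.mul_sum, ← Finset.sum_add_distrib]
  refine Finset.sum_congr rfl fun x _ => ?_
  rw [hop_split lam V]
  ring

/-- first differences of the bump -/
lemma ct_diff (R : ℕ) (x : Z d) (i : Fin d) :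
    (ct R (x + Pi.single i 1) - ct R x) ^ 2 =
      ∏ j, (if j = i then ((tent R (x j - (0 : Z d) j + 1) : ℝ) - tent R (x j - (0 : Z d) j)) ^ 2
        else (tent R (x j - (0 : Z d) j) : ℝ) ^ 2) := by
  have h1 : ct R x = (tent R (x i - (0 : Z d) i) : ℝ) * ∏ j ∈ Finset.univ.erase i,
      (tent R (x j - (0 : Z d) j) : ℝ) := by
    unfold ct bump
    exact (Finset.mul_prod_erase Finset.univ (fun j => (tent R (x j - (0 : Z d) j) : ℝ))
      (Finset.mem_univ i)).symm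
  have h2 : ct R (x + Pi.single i 1) = (tent R (x i - (0 : Z d) i + 1) : ℝ) *
      ∏ j ∈ Finset.univ.erase i, (tent R (x j - (0 : Z d) j) : ℝ) := by
    unfold ct bump
    rw [← Finset.mul_prod_erase _ _ (Finset.mem_univ i)]
    congr 1
    · rw [Pi.add_apply, Pi.single_eq_same]
      congr 2; ring
    · refine Finset.prod_congr rfl fun j hj => ?_
      rw [Pi.add_apply, Pi.single_eq_of_ne (Finset.ne_of_mem_erase hj), add_zero]
  rw [h1, h2, ← sub_mul, mul_pow, ← Finset.mul_prod_erase _ _ (Finset.mem_univ i), if_pos rfl]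
  congr 1
  rw [← Finset.prod_pow]
  exact Finset.prod_congr rfl fun j hj => by rw [if_neg (Finset.ne_of_mem_erase hj)]

lemma tent_lip (R : ℕ) (k : ℤ) : ((tent R (k + 1) : ℝ) - tent R k) ^ 2 ≤ 1 := by
  have h : |tent R (k + 1) - tent R k| ≤ 1 := by
    unfold tent
    have h1 := abs_cases k
    have h2 := abs_cases (k + 1)
    rw [abs_le]
    constructor <;> omega
  have h2 : |(tent R (k + 1) : ℝ) - tent R k| ≤ 1 := by exact_mod_cast h
  rw [← sq_abs]
  nlinarith [abs_nonneg ((tent R (k + 1) : ℝ) - tent R k)]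

lemma ct_diff_zero (R : ℕ) (x : Z d) (i : Fin d) (hx : x ∉ box R (0 : Z d)) :
    ct R (x + Pi.single i 1) = 0 ∧ ct R x = 0 := by
  refine ⟨?_, ct_zero R x hx⟩
  rw [mem_box] at hx
  push Not at hx
  obtain ⟨j, hj⟩ := hx
  apply bump_zero
  refine ⟨j, ?_⟩
  rw [Pi.add_apply]
  by_cases hij : j = i
  · subst hij
    rw [Pi.single_eq_same]
    simp only [Pi.zero_apply, sub_zero] at hj ⊢
    have := abs_cases (x j)
    have := abs_cases (x j + 1)
    omega
  · rw [Pi.single_eq_of_ne hij, add_zero]; exact hj.le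

/-- the Dirichlet form of the bump -/
lemma DF_ct (R : ℕ) (hR : 1 ≤ R) :
    DF (fun _ => 1) (ct (d := d) R) ≤ 36 * d / (R : ℝ) ^ 2 * bb d R := by
  have hRr : (1 : ℝ) ≤ R := by exact_mod_cast hR
  have hT := tsq_pos R hR
  have hT3 := tsq R
  set T := ∑ k ∈ II R, (tent R k : ℝ) ^ 2 with hTdef
  have h : ∀ i : Fin d, ∑' x : Z d, (1 : ℝ) * 1 * (ct R (x + Pi.single i 1) - ct R x) ^ 2 ≤
      36 / (R : ℝ) ^ 2 * bb d R := by
    intro i
    rw [tsum_eq_sum (s := box R (0 : Z d)) fun x hx => by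
      obtain ⟨h1, h2⟩ := ct_diff_zero R x i hx
      rw [h1, h2]; ring]
    simp only [one_mul]
    rw [Finset.sum_congr rfl fun x _ => ct_diff R x i]
    have h1 := sum_box R (0 : Z d) (fun j k => (if j = i then ((tent R (k + 1) : ℝ) - tent R k) ^ 2
      else (tent R k : ℝ) ^ 2))
    rw [h1, ← Finset.mul_prod_erase _ _ (Finset.mem_univ i)]
    have h2 : ∏ j ∈ Finset.univ.erase i, ∑ k ∈ II R, (if j = i then
        ((tent R (k + 1) : ℝ) - tent R k) ^ 2 else (tent R k : ℝ) ^ 2) =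
        ∏ _j ∈ Finset.univ.erase i, T := by
      refine Finset.prod_congr rfl fun j hj => ?_
      simp only [if_neg (Finset.ne_of_mem_erase hj)]
      rfl
    rw [h2]
    simp only [if_true]
    have h3 : ∑ k ∈ II R, ((tent R (k + 1) : ℝ) - tent R k) ^ 2 ≤ 3 * R := by
      refine (Finset.sum_le_sum fun k _ => tent_lip R k).trans ?_
      rw [Finset.sum_const, II, Int.card_Icc, nsmul_eq_mul, mul_one]
      have : ((R : ℤ) + 1 - -(R : ℤ)).toNat = 2 * R + 1 := by omega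
      rw [this]; push_cast; linarith
    have h4 : T * ∏ _j ∈ Finset.univ.erase i, T = T ^ d := by
      rw [Finset.mul_prod_erase Finset.univ (fun _ => T) (Finset.mem_univ i)]
      simp
    have h5 : 0 ≤ ∏ _j ∈ Finset.univ.erase i, T := Finset.prod_nonneg fun _ _ => hT.le
    rw [bb_eq, ← hTdef, ← h4]
    have h6 : 3 * (R : ℝ) ≤ 36 / (R : ℝ) ^ 2 * T := by
      rw [div_mul_eq_mul_div, le_div_iff₀ (by positivity)]
      nlinarith
    calc (∑ k ∈ II R, ((tent R (k + 1) : ℝ) - tent R k) ^ 2) * ∏ _j ∈ Finset.univ.erase i, T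
        ≤ (36 / (R : ℝ) ^ 2 * T) * ∏ _j ∈ Finset.univ.erase i, T :=
          mul_le_mul_of_nonneg_right (h3.trans h6) h5
      _ = _ := by ring
  unfold DF
  refine (Finset.sum_le_sum fun i _ => h i).trans (le_of_eq ?_)
  simp
  ring

/-- the functional detects the energy of a flat state -/
lemma FF_flat {M : ℝ} (hM : 1 ≤ M) {R : ℕ} (hR : 1 ≤ R) {lam : ℝ} (hlam : 0 ≤ lam) (E : ℝ)
    (V ψ : Z d → ℝ) (hψ : ∀ x, 1 ≤ ψ x ∧ ψ x ≤ M) (h : ∀ x, HopZ lam V ψ x = E * ψ x) :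
    E ≤ FF lam M R V ∧ FF lam M R V ≤ E + 36 * d * M ^ 2 / (R : ℝ) ^ 2 := by
  have := nonempty_TG (d := d) hM hR hlam
  have hψ0 : ∀ x, 0 < ψ x := fun x => by linarith [(hψ x).1]
  constructor
  · refine le_ciInf fun g => ?_
    have h3 := nn_pos hM hR g.2
    rw [rq_eq, le_div_iff₀ h3]
    have h4 := form_eq lam E V ψ (fun x => ct R x * g.1 x / ψ x) h (box R (0 : Z d))
      (fun x hx => by rw [ct_zero R x hx]; ring)
    have e : ∀ x, ψ x * (ct R x * g.1 x / ψ x) = ct R x * g.1 x := fun x => by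
      have := (hψ0 x).ne'
      field_simp
    simp only [e] at h4
    have h5 : 0 ≤ DF ψ (fun x => ct R x * g.1 x / ψ x) := by
      unfold DF
      refine Finset.sum_nonneg fun i _ => tsum_nonneg fun x => ?_
      have := hψ0 x
      have := hψ0 (x + Pi.single i 1)
      positivity
    unfold nn
    linarith
  · have h1 : FF lam M R V ≤ rq lam R V ψ := ciInf_le (bdd hM hR hlam V) ⟨ψ, hψ⟩
    refine h1.trans ?_
    have h3 := nn_pos hM hR hψ
    rw [rq_eq, div_le_iff₀ h3]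
    have h4 := form_eq lam E V ψ (fun x => ct R x) h (box R (0 : Z d))
      (fun x hx => ct_zero R x hx)
    have e : ∀ x, ψ x * ct R x = ct R x * ψ x := fun x => mul_comm _ _
    simp only [e] at h4
    have h5 := DF_mono ψ (fun _ => 1) (ct (d := d) R) (box R (0 : Z d))
      (fun x hx => ct_zero R x hx) (M ^ 2) (fun x y => by
        have h6 := hψ x
        have h7 := hψ y
        have h8 := hψ0 y
        nlinarith)
    have h6 := DF_ct (d := d) R hR
    have h7 := nn_low (d := d) hM hR hψ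
    have h8 : DF ψ (ct (d := d) R) ≤ 36 * d * M ^ 2 / (R : ℝ) ^ 2 * nn R ψ := by
      calc DF ψ (ct (d := d) R) ≤ M ^ 2 * (36 * d / (R : ℝ) ^ 2 * bb d R) :=
            h5.trans (mul_le_mul_of_nonneg_left h6 (by positivity))
        _ = 36 * d * M ^ 2 / (R : ℝ) ^ 2 * bb d R := by ring
        _ ≤ _ := mul_le_mul_of_nonneg_left h7 (by positivity)
    unfold nn at h8 ⊢
    change _ ≤ (E + 36 * d * M ^ 2 / (R : ℝ) ^ 2) * ∑ x ∈ box R (0 : Z d), (ct R x * ψ x) ^ 2
    have e2 : DF ψ (fun x => ct (d := d) R x) = DF ψ (ct (d := d) R) := rfl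
    rw [e2] at h4
    linarith

end Pool.Agent.U874.Tr
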