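import Pool.Agent.U874.Tr.Low1

/-! # Fluctuations of the functional: comparison with a sum of independent variables -/

set_option autoImplicit false
set_option linter.unusedSectionVars false

open Filter Topology MeasureTheory

namespace Pool.Agent.U874.Tr

open Pool.Agent.U874.And

variable {d : ℕ}

/-- the iid law -/
noncomputable abbrev PP (d : ℕ) (μ : Measure ℝ) [IsProbabilityMeasure μ] : Measure (Z d → ℝ) :=
  Measure.infinitePi fun _ : Z d => μ

lemma perm_inv (μ : Measure ℝ) [IsProbabilityMeasure μ] (e : Z d ≃ Z d) :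
    (PP d μ).map (fun (V : Z d → ℝ) (x : Z d) => V (e x)) = PP d μ := by
  refine Measure.eq_infinitePi _ fun s t ht => ?_
  have hm : Measurable (fun (V : Z d → ℝ) (x : Z d) => V (e x)) := by fun_prop
  rw [Measure.map_apply hm (MeasurableSet.pi s.countable_toSet fun i _ => ht i)]
  have e1 : (fun (V : Z d → ℝ) (x : Z d) => V (e x)) ⁻¹' (Set.pi s t) =
      Set.pi (s.map e.toEmbedding) (fun x => t (e.symm x)) := by
    ext V
    simp only [Set.mem_preimage, Set.mem_pi, Finset.coe_map, Set.mem_image, Finset.mem_coe,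
      Equiv.coe_toEmbedding, forall_exists_index, and_imp, forall_apply_eq_imp_iff₂,
      Equiv.symm_apply_apply]
  rw [e1, Measure.infinitePi_pi _ fun x _ => ht _, Finset.prod_map]
  simp

section
variable {μ : Measure ℝ} [IsProbabilityMeasure μ]

/-- exchange of the sites `k` and `k + a` -/
def tau (a k : Z d) (V : Z d → ℝ) : Z d → ℝ := fun x => V (Equiv.swap k (k + a) x)

lemma tau_meas (a k : Z d) : Measurable (tau a k) := by
  unfold tau
  fun_prop

lemma tau_map (a k : Z d) : (PP d μ).map (tau a k) = PP d μ := perm_inv μ (Equiv.swap k (k + a))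

lemma int_tau (a k : Z d) (f : (Z d → ℝ) → ℝ) (hf : AEStronglyMeasurable f (PP d μ)) :
    ∫ V, f (tau a k V) ∂(PP d μ) = ∫ V, f V ∂(PP d μ) := by
  have h := integral_map (μ := PP d μ) (tau_meas a k).aemeasurable
    (f := f) (by rw [tau_map]; exact hf)
  rw [tau_map] at h
  exact h.symm

lemma integrable_tau (a k : Z d) (f : (Z d → ℝ) → ℝ) (hf : Integrable f (PP d μ)) :
    Integrable (fun V => f (tau a k V)) (PP d μ) := by
  have h := (integrable_map_measure (μ := PP d μ) (f := tau a k) (g := f)
    (by rw [tau_map]; exact hf.aestronglyMeasurable) (tau_meas a k).aemeasurable).1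
    (by rw [tau_map]; exact hf)
  exact h

lemma int_odd (a k : Z d) (f : (Z d → ℝ) → ℝ) (hf : Integrable f (PP d μ))
    (h : ∀ V, f (tau a k V) = -f V) : ∫ V, f V ∂(PP d μ) = 0 := by
  have h1 := int_tau a k f hf.aestronglyMeasurable
  simp only [h] at h1
  rw [integral_neg] at h1
  linarith

/-- the sign, with values `1` and `-1` -/
noncomputable def sg (s : ℝ) : ℝ := if 0 ≤ s then 1 else -1

lemma sg_meas : Measurable sg := by
  unfold sg
  exact Measurable.ite measurableSet_Ici measurable_const measurable_const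

lemma sg_abs (s : ℝ) : |sg s| = 1 := by
  unfold sg; split_ifs <;> simp

lemma sg_mul (s : ℝ) : s * sg s = |s| := by
  unfold sg
  split_ifs with h
  · rw [mul_one, abs_of_nonneg h]
  · rw [abs_of_neg (not_le.1 h)]; ring

lemma sg_mono {s t : ℝ} (h : s ≤ t) : sg s ≤ sg t := by
  unfold sg
  split_ifs with h1 h2 <;> linarith

lemma integrable_sg {f S : (Z d → ℝ) → ℝ} (hf : Integrable f (PP d μ)) (hS : Measurable S) :
    Integrable (fun V => f V * sg (S V)) (PP d μ) := by
  refine hf.mul_bdd (c := 1) (sg_meas.comp hS).aestronglyMeasurable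
    (Eventually.of_forall fun V => ?_)
  exact (sg_abs _).le

/-- key positivity: odd function, sign of a symmetric variable -/
lemma key (a k : Z d) (f S : (Z d → ℝ) → ℝ) (hf : Integrable f (PP d μ)) (hS : Measurable S)
    (hodd : ∀ V, f (tau a k V) = -f V)
    (hpos : ∀ V, 0 ≤ f V * (sg (S V) - sg (S (tau a k V)))) :
    0 ≤ ∫ V, f V * sg (S V) ∂(PP d μ) := by
  have h1 := int_tau a k (fun V => f V * sg (S V)) (integrable_sg hf hS).aestronglyMeasurable
  simp only [hodd] at h1
  have hS' : Measurable fun V => S (tau a k V) := hS.comp (tau_meas a k)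
  have h2 : ∫ V, f V * (sg (S V) - sg (S (tau a k V))) ∂(PP d μ) =
      ∫ V, f V * sg (S V) ∂(PP d μ) - ∫ V, f V * sg (S (tau a k V)) ∂(PP d μ) := by
    rw [← integral_sub (integrable_sg hf hS) (integrable_sg hf hS')]
    exact integral_congr_ae (Eventually.of_forall fun V => by simp only; ring)
  have h3 : ∫ V, -f V * sg (S (tau a k V)) ∂(PP d μ) =
      -∫ V, f V * sg (S (tau a k V)) ∂(PP d μ) := by
    rw [← integral_neg]
    exact integral_congr_ae (Eventually.of_forall fun V => by simp only; ring)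
  have h4 : 0 ≤ ∫ V, f V * (sg (S V) - sg (S (tau a k V))) ∂(PP d μ) :=
    integral_nonneg fun V => hpos V
  rw [h3] at h1
  linarith

end

section
variable {M : ℝ} (hM : 1 ≤ M) {R : ℕ} (hR : 1 ≤ R) {lam : ℝ} (hlam : 0 ≤ lam)
include hM hR hlam

lemma FF_cont : Continuous (FF (d := d) lam M R) := by
  rw [continuous_iff_continuousAt]
  intro V
  rw [ContinuousAt, tendsto_iff_dist_tendsto_zero]
  have h1 : Tendsto (fun W : Z d → ℝ => lam * ∑ x ∈ box R (0 : Z d), |W x - V x| * rr M R x)
      (𝓝 V) (𝓝 0) := by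
    have hc : Continuous (fun W : Z d → ℝ => lam * ∑ x ∈ box R (0 : Z d),
        |W x - V x| * rr M R x) := by fun_prop
    have := hc.tendsto V
    simpa using this
  exact squeeze_zero (fun W => dist_nonneg) (fun W => by
    rw [Real.dist_eq]; exact FF_abs hM hR hlam V W) h1

end

/-- hybrid configurations -/
def hyb (a : Z d) (A : Finset (Z d)) (V : Z d → ℝ) : Z d → ℝ :=
  fun x => if x ∈ A then V (x + a) else V x

lemma hyb_cont (a : Z d) (A : Finset (Z d)) : Continuous (hyb a A) := by
  unfold hyb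
  refine continuous_pi fun x => ?_
  split_ifs <;> fun_prop

/-- the sum -/
noncomputable def SS (M : ℝ) (R : ℕ) (a : Z d) (A : Finset (Z d)) (V : Z d → ℝ) : ℝ :=
  ∑ x ∈ A, mm M R x * (V x - V (x + a))

lemma SS_meas (M : ℝ) (R : ℕ) (a : Z d) (A : Finset (Z d)) : Measurable (SS M R a A) := by
  unfold SS
  fun_prop

section
variable {R : ℕ} {a : Z d} (ha : ∀ x ∈ box R (0 : Z d), ∀ y ∈ box R (0 : Z d), x ≠ y + a)
  (ha0 : a ≠ 0)
include ha ha0

lemma swap1 {k x : Z d} (hk : k ∈ box R (0 : Z d)) (hx : x ∈ box R (0 : Z d)) (hkx : x ≠ k) :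
    Equiv.swap k (k + a) x = x := Equiv.swap_apply_of_ne_of_ne hkx (ha x hx k hk)

lemma swap2 {k x : Z d} (hk : k ∈ box R (0 : Z d)) (hx : x ∈ box R (0 : Z d)) (hkx : x ≠ k) :
    Equiv.swap k (k + a) (x + a) = x + a :=
  Equiv.swap_apply_of_ne_of_ne (ha k hk x hx).symm (fun h => hkx (add_right_cancel h))

lemma hyb_tau (A : Finset (Z d)) (k : Z d) (hk : k ∈ box R (0 : Z d)) (hkA : k ∉ A)
    (V : Z d → ℝ) (x : Z d) (hx : x ∈ box R (0 : Z d)) :
    hyb a A (tau a k V) x = hyb a (insert k A) V x := by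
  unfold hyb tau
  by_cases h : x = k
  · subst h
    rw [if_neg hkA, if_pos (Finset.mem_insert_self _ _), Equiv.swap_apply_left]
  · rw [swap1 ha ha0 hk hx h, swap2 ha ha0 hk hx h]
    simp only [Finset.mem_insert, h, false_or]

lemma hyb_tau' (A : Finset (Z d)) (k : Z d) (hk : k ∈ box R (0 : Z d)) (hkA : k ∉ A)
    (V : Z d → ℝ) (x : Z d) (hx : x ∈ box R (0 : Z d)) :
    hyb a (insert k A) (tau a k V) x = hyb a A V x := by
  unfold hyb tau
  by_cases h : x = k
  · subst h
    rw [if_neg hkA, if_pos (Finset.mem_insert_self _ _), Equiv.swap_apply_right]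
  · rw [swap1 ha ha0 hk hx h, swap2 ha ha0 hk hx h]
    simp only [Finset.mem_insert, h, false_or]

lemma SS_tau (M : ℝ) (k : Z d) (hk : k ∈ box R (0 : Z d)) (V : Z d → ℝ) :
    SS M R a (box R (0 : Z d)) (tau a k V) =
      SS M R a (box R (0 : Z d)) V - 2 * (mm M R k * (V k - V (k + a))) := by
  classical
  unfold SS
  rw [← Finset.add_sum_erase _ _ hk, ← Finset.add_sum_erase (box R (0 : Z d)) (fun x =>
    mm M R x * (V x - V (x + a))) hk]
  have e1 : tau a k V k = V (k + a) := by unfold tau; rw [Equiv.swap_apply_left]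
  have e2 : tau a k V (k + a) = V k := by unfold tau; rw [Equiv.swap_apply_right]
  have e3 : ∑ x ∈ (box R (0 : Z d)).erase k, mm M R x * (tau a k V x - tau a k V (x + a)) =
      ∑ x ∈ (box R (0 : Z d)).erase k, mm M R x * (V x - V (x + a)) := by
    refine Finset.sum_congr rfl fun x hx => ?_
    have hxb := Finset.mem_of_mem_erase hx
    have hxk := Finset.ne_of_mem_erase hx
    unfold tau
    rw [swap1 ha ha0 hk hxb hxk, swap2 ha ha0 hk hxb hxk]
  rw [e1, e2, e3]
  ring

lemma SS_tau_out (M : ℝ) (A : Finset (Z d)) (hA : A ⊆ box R (0 : Z d)) (k : Z d)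
    (hk : k ∈ box R (0 : Z d)) (hkA : k ∉ A) (V : Z d → ℝ) :
    SS M R a A (tau a k V) = SS M R a A V := by
  unfold SS
  refine Finset.sum_congr rfl fun x hx => ?_
  have hxk : x ≠ k := fun h => hkA (h ▸ hx)
  unfold tau
  rw [swap1 ha ha0 hk (hA hx) hxk, swap2 ha ha0 hk (hA hx) hxk]

end

section
variable {μ : Measure ℝ} [IsProbabilityMeasure μ] (hμ : Integrable (fun v : ℝ => v) μ)
include hμ

lemma int_coord (x : Z d) : Integrable (fun V : Z d → ℝ => V x) (PP d μ) :=
  (measurePreserving_eval_infinitePi (fun _ : Z d => μ) x).integrable_comp_of_integrable hμ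

lemma int_SS (M : ℝ) (R : ℕ) (a : Z d) (A : Finset (Z d)) :
    Integrable (SS M R a A) (PP d μ) := by
  unfold SS
  exact integrable_finsetSum _ fun x _ => ((int_coord hμ x).sub (int_coord hμ (x + a))).const_mul _

lemma int_hyb {M : ℝ} (hM : 1 ≤ M) {R : ℕ} (hR : 1 ≤ R) {lam : ℝ} (hlam : 0 ≤ lam)
    (a : Z d) (A : Finset (Z d)) :
    Integrable (fun V => FF lam M R (hyb a A V)) (PP d μ) := by
  have hb : Integrable (fun V : Z d → ℝ => |FF lam M R (0 : Z d → ℝ)| +
      lam * ∑ x ∈ box R (0 : Z d), |hyb a A V x| * rr M R x) (PP d μ) := by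
    refine (integrable_const _).add (Integrable.const_mul ?_ _)
    refine integrable_finsetSum _ fun x _ => Integrable.mul_const ?_ _
    unfold hyb
    split_ifs
    · exact (int_coord hμ _).abs
    · exact (int_coord hμ _).abs
  refine hb.mono' ((FF_cont hM hR hlam).comp (hyb_cont a A)).aestronglyMeasurable
    (Eventually.of_forall fun V => ?_)
  have h1 := FF_abs hM hR hlam (0 : Z d → ℝ) (hyb a A V)
  simp only [Pi.zero_apply, sub_zero] at h1
  rw [Real.norm_eq_abs]
  have h2 := abs_add_le (FF lam M R (hyb a A V) - FF lam M R (0 : Z d → ℝ))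
    (FF lam M R (0 : Z d → ℝ))
  rw [sub_add_cancel] at h2
  linarith

/-- comparison with the sum -/
theorem fluct {M : ℝ} (hM : 1 ≤ M) {R : ℕ} (hR : 1 ≤ R) {lam : ℝ} (hlam : 0 ≤ lam) {a : Z d}
    (ha : ∀ x ∈ box R (0 : Z d), ∀ y ∈ box R (0 : Z d), x ≠ y + a) (ha0 : a ≠ 0)
    (A : Finset (Z d)) (hA : A ⊆ box R (0 : Z d)) :
    0 ≤ ∫ V, (FF lam M R V - FF lam M R (hyb a A V) - lam * SS M R a A V) *
      sg (SS M R a (box R (0 : Z d)) V) ∂(PP d μ) := by
  classical
  have hSm := SS_meas M R a (box R (0 : Z d))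
  induction A using Finset.induction_on with
  | empty =>
    have e : ∀ V : Z d → ℝ, hyb a ∅ V = V := fun V => by funext x; simp [hyb]
    simp only [e, SS, Finset.sum_empty, mul_zero, sub_self, zero_mul, integral_zero, le_refl]
  | insert k A hkA ih =>
    have hAb : A ⊆ box R (0 : Z d) := fun x hx => hA (Finset.mem_insert_of_mem hx)
    have hk : k ∈ box R (0 : Z d) := hA (Finset.mem_insert_self _ _)
    have ih' := ih hAb
    set f : (Z d → ℝ) → ℝ := fun V => FF lam M R (hyb a A V) - FF lam M R (hyb a (insert k A) V) -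
      lam * (mm M R k * (V k - V (k + a))) with hf
    have hfi : Integrable f (PP d μ) := by
      refine ((int_hyb hμ hM hR hlam a A).sub (int_hyb hμ hM hR hlam a (insert k A))).sub ?_
      exact (((int_coord hμ k).sub (int_coord hμ (k + a))).const_mul _).const_mul _
    have hodd : ∀ V, f (tau a k V) = -f V := by
      intro V
      simp only [hf]
      have e1 : FF lam M R (hyb a A (tau a k V)) = FF lam M R (hyb a (insert k A) V) :=
        FF_congr hM hR hlam _ _ fun x hx => hyb_tau ha ha0 A k hk hkA V x hx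
      have e2 : FF lam M R (hyb a (insert k A) (tau a k V)) = FF lam M R (hyb a A V) :=
        FF_congr hM hR hlam _ _ fun x hx => hyb_tau' ha ha0 A k hk hkA V x hx
      have e3 : tau a k V k = V (k + a) := by unfold tau; rw [Equiv.swap_apply_left]
      have e4 : tau a k V (k + a) = V k := by unfold tau; rw [Equiv.swap_apply_right]
      rw [e1, e2, e3, e4]
      ring
    have hsum : ∀ (c : Z d → ℝ → ℝ → ℝ) (V : Z d → ℝ), (∀ x s, c x s s = 0) →
        ∑ x ∈ box R (0 : Z d), c x (hyb a A V x) (hyb a (insert k A) V x) =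
          c k (V k) (V (k + a)) := by
      intro c V hc
      rw [Finset.sum_eq_single_of_mem k hk]
      · simp [hyb, hkA]
      · intro x _ hxk
        have : hyb a A V x = hyb a (insert k A) V x := by
          simp [hyb, Finset.mem_insert, hxk]
        rw [this, hc]
    have hpos : ∀ V, 0 ≤ f V * (sg (SS M R a (box R (0 : Z d)) V) -
        sg (SS M R a (box R (0 : Z d)) (tau a k V))) := by
      intro V
      rw [SS_tau ha ha0 M k hk V]
      have hmk := mm_nonneg (d := d) M R hR k
      rcases le_total (V (k + a)) (V k) with h | h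
      · have h1 := FF_mono hM hR hlam (hyb a (insert k A) V) (hyb a A V) (fun x _ => by
          by_cases hxk : x = k
          · subst hxk; simp [hyb, hkA, h]
          · simp [hyb, Finset.mem_insert, hxk])
        have h2 := hsum (fun x s t => (s - t) * mm M R x) V (fun x s => by simp)
        rw [h2] at h1
        have h3 : 0 ≤ mm M R k * (V k - V (k + a)) := mul_nonneg hmk (by linarith)
        refine mul_nonneg (by simp only [hf]; nlinarith) (sub_nonneg.2 (sg_mono (by linarith)))
      · have h1 := FF_mono hM hR hlam (hyb a A V) (hyb a (insert k A) V) (fun x _ => by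
          by_cases hxk : x = k
          · subst hxk; simp [hyb, hkA, h]
          · simp [hyb, Finset.mem_insert, hxk])
        have h2 := hsum (fun x s t => (t - s) * mm M R x) V (fun x s => by simp)
        rw [h2] at h1
        have h3 : mm M R k * (V k - V (k + a)) ≤ 0 :=
          mul_nonpos_of_nonneg_of_nonpos hmk (by linarith)
        refine mul_nonneg_of_nonpos_of_nonpos (by simp only [hf]; nlinarith)
          (sub_nonpos.2 (sg_mono (by linarith)))
    have h5 := key a k f _ hfi hSm hodd hpos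
    have hi1 : Integrable (fun V => FF lam M R V - FF lam M R (hyb a A V) - lam * SS M R a A V)
        (PP d μ) := by
      have h0 := int_hyb hμ hM hR hlam a (∅ : Finset (Z d))
      have e : ∀ V : Z d → ℝ, hyb a ∅ V = V := fun V => by funext x; simp [hyb]
      simp only [e] at h0
      exact (h0.sub (int_hyb hμ hM hR hlam a A)).sub ((int_SS hμ M R a A).const_mul _)
    have h6 : ∫ V, (FF lam M R V - FF lam M R (hyb a (insert k A) V) -
        lam * SS M R a (insert k A) V) * sg (SS M R a (box R (0 : Z d)) V) ∂(PP d μ) =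
        ∫ V, (FF lam M R V - FF lam M R (hyb a A V) - lam * SS M R a A V) *
          sg (SS M R a (box R (0 : Z d)) V) ∂(PP d μ) +
        ∫ V, f V * sg (SS M R a (box R (0 : Z d)) V) ∂(PP d μ) := by
      rw [← integral_add (integrable_sg hi1 hSm) (integrable_sg hfi hSm)]
      refine integral_congr_ae (Eventually.of_forall fun V => ?_)
      simp only [hf, SS]
      rw [Finset.sum_insert hkA]
      ring
    rw [h6]
    linarith

/-- the mean difference of the functional in two disjoint boxes -/
theorem fluct_abs {M : ℝ} (hM : 1 ≤ M) {R : ℕ} (hR : 1 ≤ R) {lam : ℝ} (hlam : 0 ≤ lam) {a : Z d}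
    (ha : ∀ x ∈ box R (0 : Z d), ∀ y ∈ box R (0 : Z d), x ≠ y + a) (ha0 : a ≠ 0) :
    lam * ∫ V, |SS M R a (box R (0 : Z d)) V| ∂(PP d μ) ≤
      ∫ V, |FF lam M R V - FF lam M R (fun x => V (x + a))| ∂(PP d μ) := by
  have h := fluct hμ hM hR hlam ha ha0 (box R (0 : Z d)) subset_rfl
  have hSm := SS_meas M R a (box R (0 : Z d))
  have h0 := int_hyb hμ hM hR hlam a (∅ : Finset (Z d))
  have e : ∀ V : Z d → ℝ, hyb a ∅ V = V := fun V => by funext x; simp [hyb]
  simp only [e] at h0
  have hb := int_hyb hμ hM hR hlam a (box R (0 : Z d))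
  have e2 : ∀ V : Z d → ℝ, FF lam M R (hyb a (box R (0 : Z d)) V) =
      FF lam M R (fun x => V (x + a)) := fun V =>
    FF_congr hM hR hlam _ _ fun x hx => by simp [hyb, hx]
  simp only [e2] at h hb
  have hS := int_SS hμ M R a (box R (0 : Z d))
  have hd : Integrable (fun V => FF lam M R V - FF lam M R (fun x => V (x + a))) (PP d μ) :=
    h0.sub hb
  have e3 : ∫ V, (FF lam M R V - FF lam M R (fun x => V (x + a)) -
      lam * SS M R a (box R (0 : Z d)) V) * sg (SS M R a (box R (0 : Z d)) V) ∂(PP d μ) =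
      ∫ V, (FF lam M R V - FF lam M R (fun x => V (x + a))) *
        sg (SS M R a (box R (0 : Z d)) V) ∂(PP d μ) -
      lam * ∫ V, |SS M R a (box R (0 : Z d)) V| ∂(PP d μ) := by
    rw [← integral_const_mul, ← integral_sub (integrable_sg hd hSm) (hS.abs.const_mul _)]
    refine integral_congr_ae (Eventually.of_forall fun V => ?_)
    simp only
    rw [← sg_mul (SS M R a (box R (0 : Z d)) V)]
    ring
  rw [e3] at h
  have h4 : ∫ V, (FF lam M R V - FF lam M R (fun x => V (x + a))) *
        sg (SS M R a (box R (0 : Z d)) V) ∂(PP d μ) ≤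
      ∫ V, |FF lam M R V - FF lam M R (fun x => V (x + a))| ∂(PP d μ) := by
    refine integral_mono (integrable_sg hd hSm) hd.abs fun V => ?_
    refine (le_abs_self _).trans ?_
    rw [abs_mul, sg_abs, mul_one]
  linarith

end

end Pool.Agent.U874.Tr
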