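import Pool.Agent.U874.Tr.Low2

/-! # Moments of the sum -/

set_option autoImplicit false
set_option linter.unusedSectionVars false

open Filter Topology MeasureTheory

namespace Pool.Agent.U874.Tr

open Pool.Agent.U874.And

variable {d : ℕ}

/-- difference of the potential at two sites -/
def xi (a x : Z d) (V : Z d → ℝ) : ℝ := V x - V (x + a)

lemma xi_meas (a x : Z d) : Measurable (xi a x) := by
  unfold xi
  fun_prop

lemma SS_insert (M : ℝ) (R : ℕ) (a : Z d) (A : Finset (Z d)) (k : Z d) (hk : k ∉ A)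
    (V : Z d → ℝ) : SS M R a (insert k A) V = SS M R a A V + mm M R k * xi a k V := by
  classical
  unfold SS xi
  rw [Finset.sum_insert hk]
  ring

lemma xi_tau (a k : Z d) (V : Z d → ℝ) : xi a k (tau a k V) = -xi a k V := by
  unfold xi tau
  rw [Equiv.swap_apply_left, Equiv.swap_apply_right]
  ring

lemma xi_tau' {R : ℕ} {a : Z d} (ha : ∀ x ∈ box R (0 : Z d), ∀ y ∈ box R (0 : Z d), x ≠ y + a)
    (ha0 : a ≠ 0) {j k : Z d} (hj : j ∈ box R (0 : Z d)) (hk : k ∈ box R (0 : Z d)) (hjk : k ≠ j)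
    (V : Z d → ℝ) : xi a k (tau a j V) = xi a k V := by
  unfold xi tau
  rw [swap1 ha ha0 hj hk hjk, swap2 ha ha0 hj hk hjk]

lemma cube_low (s α : ℝ) (hα : 0 < α) : s ^ 2 / α - s ^ 4 / (4 * α ^ 3) ≤ |s| := by
  obtain ⟨t, ht⟩ : ∃ t, t = |s| / α := ⟨_, rfl⟩
  have ht0 : 0 ≤ t := by rw [ht]; positivity
  have hs : |s| = t * α := by rw [ht]; field_simp
  have h2 : s ^ 2 = t ^ 2 * α ^ 2 := by rw [← sq_abs, hs]; ring
  have h4 : s ^ 4 = t ^ 4 * α ^ 4 := by
    have : s ^ 4 = (s ^ 2) ^ 2 := by ring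
    rw [this, h2]; ring
  rw [h2, h4, hs]
  have e : t ^ 2 * α ^ 2 / α - t ^ 4 * α ^ 4 / (4 * α ^ 3) = α * (t ^ 2 - t ^ 4 / 4) := by
    field_simp
  rw [e]
  have h5 : 0 ≤ t ^ 3 / 4 - t + 1 := by
    nlinarith [mul_nonneg (by linarith : 0 ≤ t + 2.32) (sq_nonneg (t - 1.16))]
  nlinarith [mul_nonneg (mul_nonneg hα.le ht0) h5]

section
variable {μ : Measure ℝ} [IsProbabilityMeasure μ]

lemma int_bd {f g : (Z d → ℝ) → ℝ} (hg : Integrable g (PP d μ)) (hf : Measurable f)
    (h : ∀ V, |f V| ≤ g V) : Integrable f (PP d μ) :=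
  hg.mono' hf.aestronglyMeasurable (Eventually.of_forall fun V => h V)

variable (hμ : Integrable (fun v : ℝ => v ^ 4) μ)
include hμ

lemma int_one : Integrable (fun v : ℝ => v) μ := by
  refine ((integrable_const (1 : ℝ)).add hμ).mono' measurable_id.aestronglyMeasurable
    (Eventually.of_forall fun v => ?_)
  simp only [Pi.add_apply, Real.norm_eq_abs]
  have h1 : |v| ^ 4 = v ^ 4 := by rw [← abs_pow, abs_of_nonneg (by positivity)]
  rw [← h1]
  rcases le_total |v| 1 with h | h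
  · have : 0 ≤ |v| ^ 4 := by positivity
    linarith
  · have : |v| ≤ |v| ^ 4 := le_self_pow₀ h (by norm_num)
    linarith

lemma i4c (x : Z d) : Integrable (fun V : Z d → ℝ => V x ^ 4) (PP d μ) :=
  (measurePreserving_eval_infinitePi (fun _ : Z d => μ) x).integrable_comp_of_integrable hμ

lemma e4c (x : Z d) : ∫ V, V x ^ 4 ∂(PP d μ) = ∫ v, v ^ 4 ∂μ := by
  have h := (measurePreserving_eval_infinitePi (fun _ : Z d => μ) x)
  have h2 := integral_map (μ := PP d μ) h.measurable.aemeasurable (f := fun v : ℝ => v ^ 4)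
    (by rw [h.map_eq]; exact hμ.aestronglyMeasurable)
  rw [h.map_eq] at h2
  exact h2.symm

lemma xi4_le (a x : Z d) (V : Z d → ℝ) : xi a x V ^ 4 ≤ 8 * (V x ^ 4 + V (x + a) ^ 4) := by
  unfold xi
  nlinarith [sq_nonneg (V x + V (x + a)), sq_nonneg (V x ^ 2 - V (x + a) ^ 2),
    sq_nonneg ((V x - V (x + a)) ^ 2 - (V x + V (x + a)) ^ 2),
    sq_nonneg (V x - V (x + a)), sq_nonneg (V x * V (x + a)),
    sq_nonneg (V x * (V x + V (x + a))), sq_nonneg (V (x + a) * (V x + V (x + a)))]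

lemma i4 (a x : Z d) : Integrable (fun V : Z d → ℝ => xi a x V ^ 4) (PP d μ) :=
  int_bd (((i4c hμ x).add (i4c hμ (x + a))).const_mul 8) ((xi_meas a x).pow_const 4) fun V => by
    rw [abs_of_nonneg (by positivity)]
    exact xi4_le hμ a x V

lemma e4 (a x : Z d) : ∫ V, xi a x V ^ 4 ∂(PP d μ) ≤ 16 * ∫ v, v ^ 4 ∂μ := by
  have h := integral_mono (i4 hμ a x) (((i4c hμ x).add (i4c hμ (x + a))).const_mul 8)
    (fun V => xi4_le hμ a x V)
  rw [integral_const_mul] at h
  have h2 : ∫ V : Z d → ℝ, (V x ^ 4 + V (x + a) ^ 4) ∂(PP d μ) = 2 * ∫ v, v ^ 4 ∂μ := by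
    rw [integral_add (i4c hμ x) (i4c hμ (x + a)), e4c hμ, e4c hμ]; ring
  have h3 : ∫ V : Z d → ℝ, ((fun V : Z d → ℝ => V x ^ 4) + fun V : Z d → ℝ => V (x + a) ^ 4) V
      ∂(PP d μ) = 2 * ∫ v, v ^ 4 ∂μ := h2
  rw [h3] at h
  linarith

lemma iS4 (M : ℝ) (R : ℕ) (a : Z d) (A : Finset (Z d)) :
    Integrable (fun V => SS M R a A V ^ 4) (PP d μ) := by
  classical
  induction A using Finset.induction_on with
  | empty => simp [SS]
  | insert k A hk ih =>
    refine int_bd ((ih.add ((i4 hμ a k).const_mul (mm M R k ^ 4))).const_mul 8)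
      ((SS_meas M R a _).pow_const 4) fun V => ?_
    rw [abs_of_nonneg (by positivity), SS_insert M R a A k hk]
    simp only [Pi.add_apply]
    have e : mm M R k ^ 4 * xi a k V ^ 4 = (mm M R k * xi a k V) ^ 4 := by ring
    rw [e]
    set u := SS M R a A V
    set w := mm M R k * xi a k V
    nlinarith [sq_nonneg (u - w), sq_nonneg (u ^ 2 - w ^ 2), sq_nonneg ((u - w) ^ 2 - (u + w) ^ 2),
      sq_nonneg (u + w), sq_nonneg (u * w), sq_nonneg (u * (u - w)), sq_nonneg (w * (u - w))]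

section
variable {M : ℝ} {R : ℕ} {a : Z d}
  (ha : ∀ x ∈ box R (0 : Z d), ∀ y ∈ box R (0 : Z d), x ≠ y + a) (ha0 : a ≠ 0)
include ha ha0

/-- second moment -/
lemma eS2 (v : ℝ) (hv : ∀ x : Z d, v ≤ ∫ V, xi a x V ^ 2 ∂(PP d μ)) (A : Finset (Z d))
    (hA : A ⊆ box R (0 : Z d)) :
    v * ∑ x ∈ A, mm M R x ^ 2 ≤ ∫ V, SS M R a A V ^ 2 ∂(PP d μ) := by
  classical
  induction A using Finset.induction_on with
  | empty => simp [SS]
  | insert k A hk ih =>
    have hAb : A ⊆ box R (0 : Z d) := fun x hx => hA (Finset.mem_insert_of_mem hx)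
    have hkb : k ∈ box R (0 : Z d) := hA (Finset.mem_insert_self _ _)
    have ih' := ih hAb
    have i0 := (integrable_const (μ := PP d μ) (1 : ℝ)).add ((iS4 hμ M R a A).add (i4 hμ a k))
    have i1 : Integrable (fun V => SS M R a A V * xi a k V) (PP d μ) := by
      refine int_bd i0 ((SS_meas M R a _).mul (xi_meas a k)) fun V => ?_
      simp only [Pi.add_apply]
      set u := SS M R a A V
      set w := xi a k V
      rw [abs_le]
      constructor <;> nlinarith [sq_nonneg (u - w), sq_nonneg (u + w), sq_nonneg (u ^ 2 - 1),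
        sq_nonneg (w ^ 2 - 1)]
    have i2 : Integrable (fun V => xi a k V ^ 2) (PP d μ) := by
      refine int_bd i0 ((xi_meas a k).pow_const 2) fun V => ?_
      simp only [Pi.add_apply]
      set u := SS M R a A V
      set w := xi a k V
      rw [abs_of_nonneg (sq_nonneg _)]
      nlinarith [sq_nonneg (w ^ 2 - 1), sq_nonneg (u ^ 2)]
    have i3 : Integrable (fun V => SS M R a A V ^ 2) (PP d μ) := by
      refine int_bd i0 ((SS_meas M R a _).pow_const 2) fun V => ?_
      simp only [Pi.add_apply]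
      set u := SS M R a A V
      set w := xi a k V
      rw [abs_of_nonneg (sq_nonneg _)]
      nlinarith [sq_nonneg (u ^ 2 - 1), sq_nonneg (w ^ 2)]
    have h0 := int_odd a k (fun V => SS M R a A V * xi a k V) i1 (fun V => by
      rw [SS_tau_out ha ha0 M A hAb k hkb hk, xi_tau]
      ring)
    have h1 : ∫ V, SS M R a (insert k A) V ^ 2 ∂(PP d μ) = ∫ V, SS M R a A V ^ 2 ∂(PP d μ) +
        (2 * mm M R k * ∫ V, SS M R a A V * xi a k V ∂(PP d μ) +
          mm M R k ^ 2 * ∫ V, xi a k V ^ 2 ∂(PP d μ)) := by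
      have j : Integrable (fun V => 2 * mm M R k * (SS M R a A V * xi a k V) +
          mm M R k ^ 2 * xi a k V ^ 2) (PP d μ) := (i1.const_mul _).add (i2.const_mul _)
      have q1 := integral_add i3 j
      have q2 := integral_add (i1.const_mul (2 * mm M R k)) (i2.const_mul (mm M R k ^ 2))
      rw [integral_const_mul, integral_const_mul] at q2
      rw [← q2, ← q1]
      refine integral_congr_ae (Eventually.of_forall fun V => ?_)
      simp only [SS_insert M R a A k hk]
      ring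
    rw [h1, h0, Finset.sum_insert hk]
    have h2 := mul_le_mul_of_nonneg_left (hv k) (sq_nonneg (mm M R k))
    linarith

/-- mixed moment -/
lemma eS22 (B : ℝ) (hB : ∀ x : Z d, ∫ V, xi a x V ^ 4 ∂(PP d μ) ≤ B) (k : Z d)
    (hkb : k ∈ box R (0 : Z d)) (A : Finset (Z d)) (hA : A ⊆ box R (0 : Z d)) (hkA : k ∉ A) :
    ∫ V, SS M R a A V ^ 2 * xi a k V ^ 2 ∂(PP d μ) ≤ B * ∑ x ∈ A, mm M R x ^ 2 := by
  classical
  induction A using Finset.induction_on with
  | empty => simp [SS]
  | insert j A hj ih =>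
    have hAb : A ⊆ box R (0 : Z d) := fun x hx => hA (Finset.mem_insert_of_mem hx)
    have hjb : j ∈ box R (0 : Z d) := hA (Finset.mem_insert_self _ _)
    have hkA' : k ∉ A := fun h => hkA (Finset.mem_insert_of_mem h)
    have hkj : k ≠ j := fun h => hkA (h ▸ Finset.mem_insert_self _ _)
    have ih' := ih hAb hkA'
    have i0 := (iS4 hμ M R a A).add ((i4 hμ a k).add (i4 hμ a j))
    have i1 : Integrable (fun V => SS M R a A V * xi a j V * xi a k V ^ 2) (PP d μ) := by
      refine int_bd i0 (((SS_meas M R a _).mul (xi_meas a j)).mul ((xi_meas a k).pow_const 2))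
        fun V => ?_
      simp only [Pi.add_apply]
      set u := SS M R a A V
      set w := xi a k V
      set z := xi a j V
      rw [abs_le]
      constructor <;> nlinarith [sq_nonneg (u * z - w ^ 2), sq_nonneg (u * z + w ^ 2),
        sq_nonneg (u ^ 2 - z ^ 2), sq_nonneg (u ^ 2), sq_nonneg (z ^ 2), sq_nonneg (w ^ 2)]
    have i2 : Integrable (fun V => xi a j V ^ 2 * xi a k V ^ 2) (PP d μ) := by
      refine int_bd i0 (((xi_meas a j).pow_const 2).mul ((xi_meas a k).pow_const 2)) fun V => ?_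
      simp only [Pi.add_apply]
      set u := SS M R a A V
      set w := xi a k V
      set z := xi a j V
      rw [abs_of_nonneg (by positivity)]
      nlinarith [sq_nonneg (z ^ 2 - w ^ 2), sq_nonneg (u ^ 2), sq_nonneg (z ^ 2), sq_nonneg (w ^ 2)]
    have i3 : Integrable (fun V => SS M R a A V ^ 2 * xi a k V ^ 2) (PP d μ) := by
      refine int_bd i0 (((SS_meas M R a _).pow_const 2).mul ((xi_meas a k).pow_const 2)) fun V => ?_
      simp only [Pi.add_apply]
      set u := SS M R a A V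
      set w := xi a k V
      set z := xi a j V
      rw [abs_of_nonneg (by positivity)]
      nlinarith [sq_nonneg (u ^ 2 - w ^ 2), sq_nonneg (u ^ 2), sq_nonneg (z ^ 2), sq_nonneg (w ^ 2)]
    have h0 := int_odd a j (fun V => SS M R a A V * xi a j V * xi a k V ^ 2) i1 (fun V => by
      rw [SS_tau_out ha ha0 M A hAb j hjb hj, xi_tau, xi_tau' ha ha0 hjb hkb hkj]
      ring)
    have h1 : ∫ V, SS M R a (insert j A) V ^ 2 * xi a k V ^ 2 ∂(PP d μ) =
        ∫ V, SS M R a A V ^ 2 * xi a k V ^ 2 ∂(PP d μ) +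
        (2 * mm M R j * ∫ V, SS M R a A V * xi a j V * xi a k V ^ 2 ∂(PP d μ) +
          mm M R j ^ 2 * ∫ V, xi a j V ^ 2 * xi a k V ^ 2 ∂(PP d μ)) := by
      have jj : Integrable (fun V => 2 * mm M R j * (SS M R a A V * xi a j V * xi a k V ^ 2) +
          mm M R j ^ 2 * (xi a j V ^ 2 * xi a k V ^ 2)) (PP d μ) :=
        (i1.const_mul _).add (i2.const_mul _)
      have q1 := integral_add i3 jj
      have q2 := integral_add (i1.const_mul (2 * mm M R j)) (i2.const_mul (mm M R j ^ 2))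
      rw [integral_const_mul, integral_const_mul] at q2
      rw [← q2, ← q1]
      refine integral_congr_ae (Eventually.of_forall fun V => ?_)
      simp only [SS_insert M R a A j hj]
      ring
    have h2 : ∫ V, xi a j V ^ 2 * xi a k V ^ 2 ∂(PP d μ) ≤ B := by
      have h3 : ∫ V, xi a j V ^ 2 * xi a k V ^ 2 ∂(PP d μ) ≤
          ∫ V, (1 / 2 * xi a j V ^ 4 + 1 / 2 * xi a k V ^ 4) ∂(PP d μ) := by
        refine integral_mono i2 (((i4 hμ a j).const_mul _).add ((i4 hμ a k).const_mul _))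
          fun V => ?_
        simp only
        nlinarith [sq_nonneg (xi a j V ^ 2 - xi a k V ^ 2)]
      rw [integral_add ((i4 hμ a j).const_mul _) ((i4 hμ a k).const_mul _), integral_const_mul,
        integral_const_mul] at h3
      have := hB j
      have := hB k
      linarith
    rw [h1, h0, Finset.sum_insert hj]
    have h4 := mul_le_mul_of_nonneg_left h2 (sq_nonneg (mm M R j))
    linarith

/-- fourth moment -/
lemma eS4 (B : ℝ) (hB0 : 0 ≤ B) (hB : ∀ x : Z d, ∫ V, xi a x V ^ 4 ∂(PP d μ) ≤ B)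
    (A : Finset (Z d)) (hA : A ⊆ box R (0 : Z d)) :
    ∫ V, SS M R a A V ^ 4 ∂(PP d μ) ≤ 3 * B * (∑ x ∈ A, mm M R x ^ 2) ^ 2 := by
  classical
  induction A using Finset.induction_on with
  | empty => simp [SS]
  | insert k A hk ih =>
    have hAb : A ⊆ box R (0 : Z d) := fun x hx => hA (Finset.mem_insert_of_mem hx)
    have hkb : k ∈ box R (0 : Z d) := hA (Finset.mem_insert_self _ _)
    have ih' := ih hAb
    have i0 := (iS4 hμ M R a A).add (i4 hμ a k)
    have i1 : Integrable (fun V => SS M R a A V ^ 3 * xi a k V) (PP d μ) := by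
      refine int_bd i0 (((SS_meas M R a _).pow_const 3).mul (xi_meas a k)) fun V => ?_
      simp only [Pi.add_apply]
      set u := SS M R a A V
      set w := xi a k V
      rw [abs_le]
      constructor <;> nlinarith [sq_nonneg (u ^ 2 - u * w), sq_nonneg (u ^ 2 + u * w),
        sq_nonneg (u ^ 2 - w ^ 2), sq_nonneg (u ^ 2), sq_nonneg (w ^ 2)]
    have i2 : Integrable (fun V => SS M R a A V ^ 2 * xi a k V ^ 2) (PP d μ) := by
      refine int_bd i0 (((SS_meas M R a _).pow_const 2).mul ((xi_meas a k).pow_const 2)) fun V => ?_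
      simp only [Pi.add_apply]
      set u := SS M R a A V
      set w := xi a k V
      rw [abs_of_nonneg (by positivity)]
      nlinarith [sq_nonneg (u ^ 2 - w ^ 2), sq_nonneg (u ^ 2), sq_nonneg (w ^ 2)]
    have i3 : Integrable (fun V => SS M R a A V * xi a k V ^ 3) (PP d μ) := by
      refine int_bd i0 ((SS_meas M R a _).mul ((xi_meas a k).pow_const 3)) fun V => ?_
      simp only [Pi.add_apply]
      set u := SS M R a A V
      set w := xi a k V
      rw [abs_le]
      constructor <;> nlinarith [sq_nonneg (w ^ 2 - u * w), sq_nonneg (w ^ 2 + u * w),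
        sq_nonneg (u ^ 2 - w ^ 2), sq_nonneg (u ^ 2), sq_nonneg (w ^ 2)]
    have h0 := int_odd a k (fun V => SS M R a A V ^ 3 * xi a k V) i1 (fun V => by
      rw [SS_tau_out ha ha0 M A hAb k hkb hk, xi_tau]
      ring)
    have h0' := int_odd a k (fun V => SS M R a A V * xi a k V ^ 3) i3 (fun V => by
      rw [SS_tau_out ha ha0 M A hAb k hkb hk, xi_tau]
      ring)
    have h1 : ∫ V, SS M R a (insert k A) V ^ 4 ∂(PP d μ) = ∫ V, SS M R a A V ^ 4 ∂(PP d μ) +
        (4 * mm M R k * ∫ V, SS M R a A V ^ 3 * xi a k V ∂(PP d μ) +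
        (6 * mm M R k ^ 2 * ∫ V, SS M R a A V ^ 2 * xi a k V ^ 2 ∂(PP d μ) +
        (4 * mm M R k ^ 3 * ∫ V, SS M R a A V * xi a k V ^ 3 ∂(PP d μ) +
          mm M R k ^ 4 * ∫ V, xi a k V ^ 4 ∂(PP d μ)))) := by
      have j3 : Integrable (fun V => 4 * mm M R k ^ 3 * (SS M R a A V * xi a k V ^ 3) +
          mm M R k ^ 4 * xi a k V ^ 4) (PP d μ) := (i3.const_mul _).add ((i4 hμ a k).const_mul _)
      have j2 : Integrable (fun V => 6 * mm M R k ^ 2 * (SS M R a A V ^ 2 * xi a k V ^ 2) +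
          (4 * mm M R k ^ 3 * (SS M R a A V * xi a k V ^ 3) +
          mm M R k ^ 4 * xi a k V ^ 4)) (PP d μ) := (i2.const_mul _).add j3
      have j1 : Integrable (fun V => 4 * mm M R k * (SS M R a A V ^ 3 * xi a k V) +
          (6 * mm M R k ^ 2 * (SS M R a A V ^ 2 * xi a k V ^ 2) +
          (4 * mm M R k ^ 3 * (SS M R a A V * xi a k V ^ 3) +
          mm M R k ^ 4 * xi a k V ^ 4))) (PP d μ) := (i1.const_mul _).add j2
      have q0 := integral_add (iS4 hμ M R a A) j1
      have q1 := integral_add (i1.const_mul (4 * mm M R k)) j2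
      have q2 := integral_add (i2.const_mul (6 * mm M R k ^ 2)) j3
      have q3 := integral_add (i3.const_mul (4 * mm M R k ^ 3)) ((i4 hμ a k).const_mul (mm M R k ^ 4))
      rw [integral_const_mul] at q1 q2
      rw [integral_const_mul, integral_const_mul] at q3
      rw [← q3, ← q2, ← q1, ← q0]
      refine integral_congr_ae (Eventually.of_forall fun V => ?_)
      simp only [SS_insert M R a A k hk]
      ring
    rw [h1, h0, h0', Finset.sum_insert hk]
    have h2 := eS22 (M := M) hμ ha ha0 B hB k hkb A hAb hk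
    have h3 := mul_le_mul_of_nonneg_left h2 (by positivity : 0 ≤ 6 * mm M R k ^ 2)
    have h4 := mul_le_mul_of_nonneg_left (hB k) (by positivity : 0 ≤ mm M R k ^ 4)
    have h5 : 0 ≤ B * mm M R k ^ 4 := by positivity
    nlinarith

/-- lower bound of the first absolute moment -/
theorem eabs (v B : ℝ) (hv0 : 0 < v) (hB0 : 0 < B)
    (hv : ∀ x : Z d, v ≤ ∫ V, xi a x V ^ 2 ∂(PP d μ))
    (hB : ∀ x : Z d, ∫ V, xi a x V ^ 4 ∂(PP d μ) ≤ B)
    (hs : 0 < ∑ x ∈ box R (0 : Z d), mm M R x ^ 2) :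
    v / 2 * Real.sqrt (∑ x ∈ box R (0 : Z d), mm M R x ^ 2) / Real.sqrt (3 * B / (2 * v)) ≤
      ∫ V, |SS M R a (box R (0 : Z d)) V| ∂(PP d μ) := by
  set s := ∑ x ∈ box R (0 : Z d), mm M R x ^ 2 with hsd
  set K := 3 * B / (2 * v) with hK
  have hK0 : 0 < K := by positivity
  set α := Real.sqrt (K * s) with hα
  have hα0 : 0 < α := Real.sqrt_pos.2 (by positivity)
  have hα2 : α ^ 2 = K * s := Real.sq_sqrt (by positivity)
  have h2 := eS2 (M := M) hμ ha ha0 v hv (box R (0 : Z d)) subset_rfl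
  have h4 := eS4 (M := M) hμ ha ha0 B hB0.le hB (box R (0 : Z d)) subset_rfl
  rw [← hsd] at h2 h4
  have i4' := iS4 hμ M R a (box R (0 : Z d))
  have i2' : Integrable (fun V => SS M R a (box R (0 : Z d)) V ^ 2) (PP d μ) := by
    refine int_bd ((integrable_const (1 : ℝ)).add i4') ((SS_meas M R a _).pow_const 2) fun V => ?_
    simp only [Pi.add_apply]
    rw [abs_of_nonneg (sq_nonneg _)]
    nlinarith [sq_nonneg (SS M R a (box R (0 : Z d)) V ^ 2 - 1)]
  have i1' := (int_SS (int_one hμ) M R a (box R (0 : Z d))).abs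
  have h5 : ∫ V, (α⁻¹ * SS M R a (box R (0 : Z d)) V ^ 2 -
      (4 * α ^ 3)⁻¹ * SS M R a (box R (0 : Z d)) V ^ 4) ∂(PP d μ) ≤
      ∫ V, |SS M R a (box R (0 : Z d)) V| ∂(PP d μ) := by
    refine integral_mono ((i2'.const_mul _).sub (i4'.const_mul _)) i1' fun V => ?_
    have := cube_low (SS M R a (box R (0 : Z d)) V) α hα0
    simp only
    rw [div_eq_inv_mul, div_eq_inv_mul] at this
    exact this
  rw [integral_sub (i2'.const_mul _) (i4'.const_mul _), integral_const_mul,
    integral_const_mul] at h5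
  refine le_trans ?_ h5
  have h6 : α⁻¹ * (v * s) - (4 * α ^ 3)⁻¹ * (3 * B * s ^ 2) ≤
      α⁻¹ * ∫ V, SS M R a (box R (0 : Z d)) V ^ 2 ∂(PP d μ) -
        (4 * α ^ 3)⁻¹ * ∫ V, SS M R a (box R (0 : Z d)) V ^ 4 ∂(PP d μ) := by
    have g1 := mul_le_mul_of_nonneg_left h2 (by positivity : 0 ≤ α⁻¹)
    have g2 := mul_le_mul_of_nonneg_left h4 (by positivity : 0 ≤ (4 * α ^ 3)⁻¹)
    linarith
  refine le_trans (le_of_eq ?_) h6
  have e1 : (4 * α ^ 3)⁻¹ * (3 * B * s ^ 2) = α⁻¹ * (v / 2 * s) := by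
    have : α ^ 3 = α * (K * s) := by rw [← hα2]; ring
    rw [this, hK]
    field_simp
    ring
  rw [e1]
  have e2 : α = Real.sqrt K * Real.sqrt s := Real.sqrt_mul hK0.le s
  have e3 : s = Real.sqrt s * Real.sqrt s := (Real.mul_self_sqrt hs.le).symm
  have hsq : 0 < Real.sqrt s := Real.sqrt_pos.2 hs
  have hKq : 0 < Real.sqrt K := Real.sqrt_pos.2 hK0
  have e4 : α⁻¹ * (v * s) - α⁻¹ * (v / 2 * s) = v / 2 * (α⁻¹ * s) := by ring
  rw [e4, e2]
  nth_rewrite 3 [e3]
  field_simp

end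

end

end Pool.Agent.U874.Tr
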