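import Pool.Agent.U874.Tr.Low3
import Pool.Agent.U874.And.Cpt

/-! # Lower bound of the mean change -/

set_option autoImplicit false

open Filter Topology MeasureTheory

namespace Pool.Agent.U874.Tr

open Pool.Agent.U874.And

variable {d : ℕ}

lemma flat_shift {M lam E : ℝ} {V ψ : Z d → ℝ} (a : Z d) (hψ : ∀ x, 1 ≤ ψ x ∧ ψ x ≤ M)
    (h : ∀ x, HopZ lam V ψ x = E * ψ x) :
    (∀ x, 1 ≤ ψ (x + a) ∧ ψ (x + a) ≤ M) ∧
      ∀ x, HopZ lam (fun y => V (y + a)) (fun y => ψ (y + a)) x = E * ψ (x + a) := by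
  refine ⟨fun x => hψ _, fun x => ?_⟩
  rw [← h (x + a)]
  unfold HopZ
  have e1 : ∀ i : Fin d, x + Pi.single i 1 + a = x + a + Pi.single i 1 := fun i => by abel
  have e2 : ∀ i : Fin d, x - Pi.single i 1 + a = x + a - Pi.single i 1 := fun i => by abel
  simp only [e1, e2]

lemma var_low {μ : Measure ℝ} [IsProbabilityMeasure μ] (hμ : Integrable (fun v : ℝ => v ^ 4) μ)
    (a b : ℝ) (hab : a < b) (s x : Z d) (hs : s ≠ 0) :
    (b - a) ^ 2 * (μ.real (Set.Iic a) * μ.real (Set.Ici b)) ≤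
      ∫ V, xi s x V ^ 2 ∂(PP d μ) := by
  classical
  set t : Z d → Set ℝ := fun y => if y = x then Set.Iic a else Set.Ici b with ht
  have htm : ∀ y, MeasurableSet (t y) := fun y => by
    simp only [ht]; split_ifs
    · exact measurableSet_Iic
    · exact measurableSet_Ici
  set A : Finset (Z d) := {x, x + s} with hA
  have hne : x ≠ x + s := fun h => hs (by simpa using h.symm)
  have hP : (PP d μ).real (Set.pi A t) = μ.real (Set.Iic a) * μ.real (Set.Ici b) := by
    rw [measureReal_def, Measure.infinitePi_pi _ fun y _ => htm y, hA,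
      Finset.prod_insert (by simpa using hne), Finset.prod_singleton]
    simp only [ht, if_true, if_neg hne.symm]
    rw [ENNReal.toReal_mul]
    rfl
  have hm : MeasurableSet (Set.pi (A : Set (Z d)) t) :=
    MeasurableSet.pi A.countable_toSet fun y _ => htm y
  rw [← hP]
  have i2 : Integrable (fun V : Z d → ℝ => xi s x V ^ 2) (PP d μ) := by
    refine int_bd ((integrable_const (1 : ℝ)).add (i4 hμ s x)) ((xi_meas s x).pow_const 2)
      fun V => ?_
    simp only [Pi.add_apply]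
    rw [abs_of_nonneg (sq_nonneg _)]
    nlinarith [sq_nonneg (xi s x V ^ 2 - 1)]
  have h1 : ∫ V, (Set.pi (A : Set (Z d)) t).indicator (fun _ => (b - a) ^ 2) V ∂(PP d μ) =
      (b - a) ^ 2 * (PP d μ).real (Set.pi A t) := by
    rw [integral_indicator_const _ hm, smul_eq_mul, mul_comm]
  rw [← h1]
  refine integral_mono ((integrable_const _).indicator hm) i2 fun V => ?_
  by_cases hV : V ∈ Set.pi (A : Set (Z d)) t
  · rw [Set.indicator_of_mem hV]
    have h2 := hV x (by simp [hA])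
    have h3 := hV (x + s) (by simp [hA])
    simp only [ht, if_true, if_neg hne.symm, Set.mem_Iic, Set.mem_Ici] at h2 h3
    unfold xi
    nlinarith
  · rw [Set.indicator_of_notMem hV]
    positivity

theorem lower_gen (d : ℕ) (hd : 1 ≤ d) (μ : Measure ℝ) [IsProbabilityMeasure μ]
    (hμ : Integrable (fun v : ℝ => v ^ 4) μ) (a b : ℝ) (hab : a < b)
    (ha : 0 < μ.real (Set.Iic a)) (hb : 0 < μ.real (Set.Ici b)) (M : ℝ) (hM : 1 ≤ M) :
    ∃ c : ℝ, 0 < c ∧ ∀ lam : ℝ, 0 < lam → ∀ P : Measure (XX d), IsProbabilityMeasure P →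
      P.map Prod.fst = Measure.infinitePi (fun _ : Z d => μ) →
      (∀ᵐ p ∂P, ∃ (E : ℝ) (ψ : Z d → ℝ), (∀ x, 1 ≤ ψ x ∧ ψ x ≤ M) ∧
        ∀ x, HopZ lam p.2 ψ x = E * ψ x) →
      ∀ D : ℝ, 0 ≤ D → (∀ x, ∫⁻ p, ENNReal.ofReal |p.2 x - p.1 x| ∂P ≤ ENNReal.ofReal D) →
      ∀ R : ℕ, 1 ≤ R → c / Real.sqrt ((2 * (R : ℝ) + 1) ^ d) ≤
        36 * d * M ^ 2 / (lam * (R : ℝ) ^ 2) + 2 * M ^ 2 * D := by
  obtain ⟨v, hv⟩ : ∃ v, v = (b - a) ^ 2 * (μ.real (Set.Iic a) * μ.real (Set.Ici b)) := ⟨_, rfl⟩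
  obtain ⟨B, hB⟩ : ∃ B, B = 16 * ∫ v, v ^ 4 ∂μ + 1 := ⟨_, rfl⟩
  have hv0 : 0 < v := by
    rw [hv]
    have : 0 < b - a := by linarith
    positivity
  have hB0 : 0 < B := by
    have : 0 ≤ ∫ v : ℝ, v ^ 4 ∂μ := integral_nonneg fun v => by positivity
    linarith
  refine ⟨v / 2 / Real.sqrt (3 * B / (2 * v)) / M ^ 2, by positivity, ?_⟩
  intro lam hlam P hPp hP hae D hD hDx R hR
  set i0 : Fin d := ⟨0, by omega⟩ with hi0
  set s : Z d := Pi.single i0 (3 * (R : ℤ)) with hs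
  have hR0 : (1 : ℤ) ≤ R := by exact_mod_cast hR
  have hs0 : s ≠ 0 := by
    intro h
    have := congrFun h i0
    rw [hs, Pi.single_eq_same, Pi.zero_apply] at this
    omega
  have hdis : ∀ x ∈ box R (0 : Z d), ∀ y ∈ box R (0 : Z d), x ≠ y + s := by
    intro x hx y hy h
    rw [mem_box] at hx hy
    have h1 := hx i0
    have h2 := hy i0
    have h3 := congrFun h i0
    rw [Pi.add_apply, hs, Pi.single_eq_same] at h3
    simp only [Pi.zero_apply, sub_zero] at h1 h2
    have := abs_le.1 h1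
    have := abs_le.1 h2
    omega
  have hsum : 0 < ∑ x ∈ box R (0 : Z d), mm M R x ^ 2 := by
    refine lt_of_lt_of_le ?_ (mm_sq M hM R hR)
    positivity
  have h1 := eabs (M := M) hμ hdis hs0 v B hv0 hB0
    (fun x => by rw [hv]; exact var_low hμ a b hab s x hs0)
    (fun x => by have := e4 hμ s x; linarith) hsum
  have h2 := fluct_abs (int_one hμ) hM hR hlam.le hdis hs0
  -- under the coupling
  have hFc := FF_cont (d := d) hM hR hlam.le
  have hshc : Continuous fun V : Z d → ℝ => fun x => V (x + s) := by fun_prop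
  have hGc : Continuous fun V : Z d → ℝ => |FF lam M R V - FF lam M R (fun x => V (x + s))| :=
    (hFc.sub (hFc.comp hshc)).abs
  have h3 : ∫ V, |FF lam M R V - FF lam M R (fun x => V (x + s))| ∂(PP d μ) =
      ∫ p, |FF lam M R p.1 - FF lam M R (fun x => p.1 (x + s))| ∂P := by
    have : PP d μ = P.map Prod.fst := hP.symm
    rw [this]
    exact integral_map measurable_fst.aemeasurable hGc.aestronglyMeasurable
  have hint : ∀ x, Integrable (fun p : XX d => |p.2 x - p.1 x|) P ∧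
      ∫ p : XX d, |p.2 x - p.1 x| ∂P ≤ D := by
    intro x
    have hm : Measurable fun p : XX d => |p.2 x - p.1 x| := by fun_prop
    have hi : Integrable (fun p : XX d => |p.2 x - p.1 x|) P := by
      refine ⟨hm.aestronglyMeasurable, ?_⟩
      rw [hasFiniteIntegral_iff_ofReal (Eventually.of_forall fun p => abs_nonneg _)]
      exact lt_of_le_of_lt (hDx x) ENNReal.ofReal_lt_top
    refine ⟨hi, ?_⟩
    rw [integral_eq_lintegral_of_nonneg_ae (Eventually.of_forall fun p => abs_nonneg _)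
      hm.aestronglyMeasurable]
    exact ENNReal.toReal_le_of_le_ofReal hD (hDx x)
  have hIsum : ∀ e : Z d → Z d, Integrable (fun p : XX d => ∑ x ∈ box R (0 : Z d),
      |p.2 (e x) - p.1 (e x)| * rr M R x) P := fun e =>
    integrable_finsetSum _ fun x _ => (hint (e x)).1.mul_const _
  have hIle : ∀ e : Z d → Z d, ∫ p : XX d, ∑ x ∈ box R (0 : Z d),
      |p.2 (e x) - p.1 (e x)| * rr M R x ∂P ≤ M ^ 2 * D := by
    intro e
    rw [integral_finsetSum _ fun x _ => (hint (e x)).1.mul_const _]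
    calc ∑ x ∈ box R (0 : Z d), ∫ p : XX d, |p.2 (e x) - p.1 (e x)| * rr M R x ∂P
        ≤ ∑ x ∈ box R (0 : Z d), D * rr M R x := by
          refine Finset.sum_le_sum fun x _ => ?_
          rw [integral_mul_const]
          exact mul_le_mul_of_nonneg_right (hint (e x)).2 (rr_nonneg M R hR x)
      _ = M ^ 2 * D := by rw [← Finset.mul_sum, rr_sum M R hR, mul_comm]
  have h4 : ∀ᵐ p ∂P, |FF lam M R p.1 - FF lam M R (fun x => p.1 (x + s))| ≤
      lam * (∑ x ∈ box R (0 : Z d), |p.2 x - p.1 x| * rr M R x) +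
      lam * (∑ x ∈ box R (0 : Z d), |p.2 (x + s) - p.1 (x + s)| * rr M R x) +
      36 * d * M ^ 2 / (R : ℝ) ^ 2 := by
    filter_upwards [hae] with p hp
    obtain ⟨E, ψ, hψ, hψe⟩ := hp
    have f1 := FF_flat hM hR hlam.le E p.2 ψ hψ hψe
    obtain ⟨g1, g2⟩ := flat_shift s hψ hψe
    have f2 := FF_flat hM hR hlam.le E _ _ g1 g2
    have f3 := FF_abs hM hR hlam.le p.1 p.2
    have f4 := FF_abs hM hR hlam.le (fun x => p.1 (x + s)) (fun x => p.2 (x + s))
    rw [abs_le] at f3 f4 ⊢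
    constructor <;> linarith [f1.1, f1.2, f2.1, f2.2, f3.1, f3.2, f4.1, f4.2]
  have h5 : ∫ p, |FF lam M R p.1 - FF lam M R (fun x => p.1 (x + s))| ∂P ≤
      lam * (M ^ 2 * D) + lam * (M ^ 2 * D) + 36 * d * M ^ 2 / (R : ℝ) ^ 2 := by
    have hI1 := (hIsum (fun x => x)).const_mul lam
    have hI2 := (hIsum (fun x => x + s)).const_mul lam
    have hI12 : Integrable (fun p : XX d => lam * (∑ x ∈ box R (0 : Z d),
        |p.2 x - p.1 x| * rr M R x) + lam * (∑ x ∈ box R (0 : Z d),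
        |p.2 (x + s) - p.1 (x + s)| * rr M R x)) P := hI1.add hI2
    have hI : Integrable (fun p : XX d => lam * (∑ x ∈ box R (0 : Z d),
        |p.2 x - p.1 x| * rr M R x) + lam * (∑ x ∈ box R (0 : Z d),
        |p.2 (x + s) - p.1 (x + s)| * rr M R x) + 36 * d * M ^ 2 / (R : ℝ) ^ 2) P :=
      hI12.add (integrable_const _)
    have hGm : AEStronglyMeasurable
        (fun p : XX d => |FF lam M R p.1 - FF lam M R (fun x => p.1 (x + s))|) P :=
      (hGc.comp continuous_fst).aestronglyMeasurable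
    have hGi : Integrable (fun p : XX d => |FF lam M R p.1 - FF lam M R (fun x => p.1 (x + s))|) P :=
      hI.mono' hGm (by
        filter_upwards [h4] with p hp
        rw [Real.norm_eq_abs, abs_abs]
        exact hp)
    refine (integral_mono_ae hGi hI h4).trans ?_
    rw [integral_add hI12 (integrable_const _), integral_add hI1 hI2, integral_const_mul,
      integral_const_mul]
    have g1 := mul_le_mul_of_nonneg_left (hIle (fun x => x)) hlam.le
    have g2 := mul_le_mul_of_nonneg_left (hIle (fun x => x + s)) hlam.le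
    have g3 : ∫ _ : XX d, 36 * (d : ℝ) * M ^ 2 / (R : ℝ) ^ 2 ∂P = 36 * d * M ^ 2 / (R : ℝ) ^ 2 := by
      simp
    rw [g3]
    linarith
  rw [h3] at h2
  -- the lower bound of the square root
  have h6 : 1 / (M ^ 2 * Real.sqrt ((2 * (R : ℝ) + 1) ^ d)) ≤
      Real.sqrt (∑ x ∈ box R (0 : Z d), mm M R x ^ 2) := by
    apply Real.le_sqrt_of_sq_le
    refine le_trans (le_of_eq ?_) (mm_sq M hM R hR)
    rw [div_pow, mul_pow, Real.sq_sqrt (by positivity)]
    ring
  have h7 : v / 2 * (1 / (M ^ 2 * Real.sqrt ((2 * (R : ℝ) + 1) ^ d))) /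
      Real.sqrt (3 * B / (2 * v)) ≤ ∫ V, |SS M R s (box R (0 : Z d)) V| ∂(PP d μ) := by
    refine le_trans ?_ h1
    gcongr
  have h8 : lam * (v / 2 / Real.sqrt (3 * B / (2 * v)) / M ^ 2 /
      Real.sqrt ((2 * (R : ℝ) + 1) ^ d)) ≤
      lam * (M ^ 2 * D) + lam * (M ^ 2 * D) + 36 * d * M ^ 2 / (R : ℝ) ^ 2 := by
    refine le_trans ?_ (h2.trans h5)
    refine le_trans (le_of_eq ?_) (mul_le_mul_of_nonneg_left h7 hlam.le)
    have : 0 < Real.sqrt ((2 * (R : ℝ) + 1) ^ d) := by positivity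
    have : 0 < Real.sqrt (3 * B / (2 * v)) := by positivity
    field_simp
  have hRp : (0 : ℝ) < R := by exact_mod_cast hR
  have h9 : lam * (v / 2 / Real.sqrt (3 * B / (2 * v)) / M ^ 2 /
      Real.sqrt ((2 * (R : ℝ) + 1) ^ d)) ≤
      lam * (36 * d * M ^ 2 / (lam * (R : ℝ) ^ 2) + 2 * M ^ 2 * D) := by
    refine h8.trans (le_of_eq ?_)
    field_simp
    ring
  exact le_of_mul_le_mul_left h9 hlam

end Pool.Agent.U874.Tr
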