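import Pool.Agent.U874.Tr.Low4

/-! # Lower bound of the mean change, dimension three -/

set_option autoImplicit false

open Filter Topology MeasureTheory

namespace Pool.Agent.U874.Tr

open Pool.Agent.U874.And

theorem lower3 (μ : Measure ℝ) [IsProbabilityMeasure μ]
    (hμ : Integrable (fun v : ℝ => v ^ 4) μ) (a b : ℝ) (hab : a < b)
    (ha : 0 < μ.real (Set.Iic a)) (hb : 0 < μ.real (Set.Ici b)) (M : ℝ) (hM : 1 ≤ M) :
    ∃ c : ℝ, 0 < c ∧ ∀ lam : ℝ, 0 < lam → lam ≤ 1 → ∀ P : Measure (XX 3), IsProbabilityMeasure P →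
      P.map Prod.fst = Measure.infinitePi (fun _ : Z 3 => μ) →
      (∀ᵐ p ∂P, ∃ (E : ℝ) (ψ : Z 3 → ℝ), (∀ x, 1 ≤ ψ x ∧ ψ x ≤ M) ∧
        ∀ x, HopZ lam p.2 ψ x = E * ψ x) →
      ∃ x, ENNReal.ofReal (c * lam ^ 3) ≤ ∫⁻ p, ENNReal.ofReal |p.2 x - p.1 x| ∂P := by
  obtain ⟨c, hc, H⟩ := lower_gen 3 (by norm_num) μ hμ a b hab ha hb M hM
  obtain ⟨u, hu⟩ : ∃ u, u = 1296 * M ^ 2 / c + 1 := ⟨_, rfl⟩
  have hM0 : 0 < M := by linarith
  have hu1 : 1 ≤ u := by rw [hu]; have : 0 < 1296 * M ^ 2 / c := by positivity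
                         linarith
  have hu0 : 0 < u := by linarith
  have huc : 1296 * M ^ 2 ≤ c * u := by
    rw [hu]
    have : c * (1296 * M ^ 2 / c + 1) = 1296 * M ^ 2 + c := by field_simp
    rw [this]; linarith
  refine ⟨c / (400 * M ^ 2 * u ^ 3), by positivity, ?_⟩
  intro lam hlam hlam1 P hPp hP hae
  by_contra hcon
  push Not at hcon
  set D := c / (400 * M ^ 2 * u ^ 3) * lam ^ 3 with hD
  have hD0 : 0 ≤ D := by positivity
  set y := u ^ 2 / lam ^ 2 with hy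
  have hy1 : 1 ≤ y := by
    rw [hy, le_div_iff₀ (by positivity), one_mul]
    have h1 : lam ^ 2 ≤ 1 := pow_le_one₀ hlam.le hlam1
    have h2 : 1 ≤ u ^ 2 := one_le_pow₀ hu1
    linarith
  set R : ℕ := ⌈y⌉₊ with hR
  have hRl : y ≤ R := Nat.le_ceil y
  have hRu : (R : ℝ) ≤ 2 * y := by
    have := Nat.ceil_lt_add_one (a := y) (by positivity)
    linarith
  have hR1 : 1 ≤ R := by
    have : (1 : ℝ) ≤ R := by linarith
    exact_mod_cast this
  have h1 := H lam hlam P hPp hP hae D hD0 (fun x => (hcon x).le) R hR1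
  obtain ⟨r, hr⟩ : ∃ r, r = Real.sqrt R := ⟨_, rfl⟩
  have hRp : (0 : ℝ) < R := by exact_mod_cast hR1
  have hR1' : (1 : ℝ) ≤ R := by exact_mod_cast hR1
  have hr0 : 0 < r := by rw [hr]; exact Real.sqrt_pos.2 hRp
  have hr2 : r ^ 2 = R := by rw [hr]; exact Real.sq_sqrt hRp.le
  have hs : Real.sqrt ((2 * (R : ℝ) + 1) ^ 3) ≤ 6 * r ^ 3 := by
    rw [Real.sqrt_le_left (by positivity)]
    have e : (6 * r ^ 3) ^ 2 = 36 * (r ^ 2) ^ 3 := by ring
    rw [e, hr2]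
    calc (2 * (R : ℝ) + 1) ^ 3 ≤ (3 * R) ^ 3 := by gcongr; linarith
      _ = 27 * (R : ℝ) ^ 3 := by ring
      _ ≤ 36 * (R : ℝ) ^ 3 := by have : 0 < (R : ℝ) ^ 3 := by positivity
                                 linarith
  have hrl : u ≤ lam * r := by
    have h2 : u ^ 2 ≤ (lam * r) ^ 2 := by
      rw [mul_pow, hr2]
      have : lam ^ 2 * y = u ^ 2 := by rw [hy]; field_simp
      rw [← this]
      exact mul_le_mul_of_nonneg_left hRl (by positivity)
    exact (pow_le_pow_iff_left₀ hu0.le (by positivity) (by norm_num)).1 h2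
  have hru : lam * r ≤ 2 * u := by
    have h2 : (lam * r) ^ 2 ≤ (2 * u) ^ 2 := by
      rw [mul_pow, hr2]
      have : lam ^ 2 * y = u ^ 2 := by rw [hy]; field_simp
      have h3 : lam ^ 2 * (R : ℝ) ≤ lam ^ 2 * (2 * y) :=
        mul_le_mul_of_nonneg_left hRu (by positivity)
      nlinarith
    exact (pow_le_pow_iff_left₀ (by positivity) (by positivity) (by norm_num)).1 h2
  -- multiply by r ^ 3
  have h2 : c / 6 ≤ r ^ 3 * (c / Real.sqrt ((2 * (R : ℝ) + 1) ^ 3)) := by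
    have h3 : c / (6 * r ^ 3) ≤ c / Real.sqrt ((2 * (R : ℝ) + 1) ^ 3) := by
      gcongr
    calc c / 6 = r ^ 3 * (c / (6 * r ^ 3)) := by field_simp
      _ ≤ _ := mul_le_mul_of_nonneg_left h3 (by positivity)
  have h3 := mul_le_mul_of_nonneg_left h1 (by positivity : 0 ≤ r ^ 3)
  have h4 : r ^ 3 * (36 * ((3 : ℕ) : ℝ) * M ^ 2 / (lam * (R : ℝ) ^ 2)) ≤ c / 12 := by
    rw [← hr2]
    have e : r ^ 3 * (36 * ((3 : ℕ) : ℝ) * M ^ 2 / (lam * (r ^ 2) ^ 2)) =
        108 * M ^ 2 / (lam * r) := by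
      push_cast
      field_simp
      ring
    rw [e, div_le_iff₀ (by positivity)]
    have : c * u ≤ c * (lam * r) := mul_le_mul_of_nonneg_left hrl hc.le
    linarith
  have h5 : r ^ 3 * (2 * M ^ 2 * D) ≤ c / 25 := by
    have e : r ^ 3 * (2 * M ^ 2 * D) = c / (200 * u ^ 3) * (lam * r) ^ 3 := by
      rw [hD]
      field_simp
      ring
    rw [e]
    calc c / (200 * u ^ 3) * (lam * r) ^ 3 ≤ c / (200 * u ^ 3) * (2 * u) ^ 3 := by gcongr
      _ = c / 25 := by field_simp; ring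
  rw [mul_add] at h3
  linarith

end Pool.Agent.U874.Tr
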