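import Pool.Agent.U874.Tr.Up3
import Pool.Agent.U874.Tr.Low5
import Pool.Agent.U874.And.Main

/-! # Assembly: law in a bounded interval -/

set_option autoImplicit false

open MeasureTheory Filter Topology
open scoped InnerProductSpace

namespace Pool.Agent.U874.Tr

open Pool.Agent.H4R2.AE Pool.Agent.U874.And

/-- everything about the flat ground state, given the equation -/
lemma ext_all (d : ℕ) (hd : 3 ≤ d) : ∃ C : ℝ, 0 < C ∧ ∀ (η lam E B : ℝ) (V ψ : Z d → ℝ),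
    0 < η → η ≤ 1 → 0 ≤ B → (∀ x, |V x| ≤ B) → (∀ x, 1 ≤ ψ x ∧ ψ x ≤ 1 + η) →
    (∀ x, HopZ lam V ψ x = E * ψ x) → Ext C η lam E V := by
  obtain ⟨C, hC, hloc⟩ := loc d hd
  refine ⟨C, by linarith, ?_⟩
  intro η lam E B V ψ hη hη1 hB hV hψ hψe
  have hψ1 : ∀ x, 1 ≤ ψ x := fun x => (hψ x).1
  have hψ2 : ∀ x, ψ x ≤ 2 := fun x => by have := (hψ x).2; linarith
  obtain ⟨H, hH⟩ := Exist.exists_anderson d lam V B hB hV
  refine ⟨⟨ψ, hψ, hψe⟩, ?_, H, hH, ?_, ?_, ?_⟩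
  · intro Λ s k hs
    exact compare lam η E V ψ hψ hψe Λ s hs k
  · exact form_low hH E ψ hψ1 hψe
  · exact form_up hH E ψ hψ1 hψ2 hψe
  · exact hloc lam E V ψ hψ1 hψ2 hψe H hH

lemma coup_ext (d : ℕ) (hd : 3 ≤ d) : ∃ C : ℝ, 0 < C ∧ ∀ (μ : Measure ℝ) (lam η t r : ℝ),
    0 < η → η ≤ 1 → Coup d μ lam η t r →
    ∃ E : ℝ, |E| ≤ lam ∧ ∃ P : Measure (XX d), IsProbabilityMeasure P ∧
      P.map Prod.fst = Measure.infinitePi (fun _ : Z d => μ) ∧ (∀ a, P.map (sh a) = P) ∧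
      P.real {p | t < |p.2 0 - p.1 0|} ≤ r ∧
      ∀ᵐ p ∂P, (∀ x, |p.2 x - p.1 x| ≤ 3) ∧ Ext C η lam E p.2 := by
  obtain ⟨C, hC, H⟩ := ext_all d hd
  refine ⟨C, hC, ?_⟩
  intro μ lam η t r hη hη1 hc
  obtain ⟨E, hE, P, h0, h1, h2, h3, h4⟩ := hc
  refine ⟨E, hE, P, h0, h1, h2, h3, ?_⟩
  filter_upwards [h4] with p hp
  obtain ⟨hV, hVV, ψ, hψ, hψe⟩ := hp
  refine ⟨hVV, H η lam E 4 p.2 ψ hη hη1 (by norm_num) (fun x => ?_) (fun x => hψ x) fun x => ?_⟩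
  · have h5 := abs_le.1 (hV x)
    have h6 := abs_le.1 (hVV x)
    rw [abs_le]
    constructor <;> linarith
  · have := abs_nonpos_iff.1 (hψe x)
    linarith

/-- the mean of the change -/
lemma mean_le {d : ℕ} (P : Measure (XX d)) [IsProbabilityMeasure P] (t r : ℝ) (ht : 0 ≤ t)
    (hr : 0 ≤ r) (h : P.real {p | t < |p.2 0 - p.1 0|} ≤ r)
    (hb : ∀ᵐ p ∂P, ∀ x, |p.2 x - p.1 x| ≤ 3) :
    ∫⁻ p, ENNReal.ofReal |p.2 0 - p.1 0| ∂P ≤ ENNReal.ofReal (t + 3 * r) := by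
  have hm : MeasurableSet {p : XX d | t < |p.2 0 - p.1 0|} :=
    measurableSet_lt measurable_const (by fun_prop)
  have h1 : ∀ᵐ p ∂P, ENNReal.ofReal |p.2 0 - p.1 0| ≤
      ENNReal.ofReal t + {p : XX d | t < |p.2 0 - p.1 0|}.indicator (fun _ => 3) p := by
    filter_upwards [hb] with p hp
    by_cases hpt : t < |p.2 0 - p.1 0|
    · rw [Set.indicator_of_mem (show p ∈ {p : XX d | t < |p.2 0 - p.1 0|} from hpt)]
      refine (ENNReal.ofReal_le_ofReal (hp 0)).trans ?_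
      rw [show ENNReal.ofReal 3 = 3 by simp]
      exact le_add_self
    · rw [Set.indicator_of_notMem (show p ∉ {p : XX d | t < |p.2 0 - p.1 0|} from hpt), add_zero]
      exact ENNReal.ofReal_le_ofReal (not_lt.1 hpt)
  refine (lintegral_mono_ae h1).trans ?_
  rw [lintegral_add_left measurable_const, lintegral_const, measure_univ, mul_one,
    lintegral_indicator_const hm, ENNReal.ofReal_add ht (by positivity),
    ENNReal.ofReal_mul (by norm_num)]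
  gcongr
  · simp
  · rw [← ENNReal.ofReal_toReal (measure_ne_top P {p : XX d | t < |p.2 0 - p.1 0|})]
    exact ENNReal.ofReal_le_ofReal h

/-- conclusion with the mean -/
def Concl (d : ℕ) (C0 : ℝ) (μ : Measure ℝ) (lam η t r : ℝ) : Prop :=
  ∃ E : ℝ, |E| ≤ lam ∧ ∃ P : Measure (XX d), IsProbabilityMeasure P ∧
      P.map Prod.fst = Measure.infinitePi (fun _ : Z d => μ) ∧ (∀ a, P.map (sh a) = P) ∧
      ∫⁻ p, ENNReal.ofReal |p.2 0 - p.1 0| ∂P ≤ ENNReal.ofReal t ∧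
      P.real {p | t < |p.2 0 - p.1 0|} ≤ r ∧
      ∀ᵐ p ∂P, (∀ x, |p.2 x - p.1 x| ≤ 3) ∧ Ext C0 η lam E p.2

theorem main3 : ∃ C0 : ℝ, 0 < C0 ∧ ∀ η : ℝ, 0 < η → η ≤ 1 → ∀ K : ℕ, ∃ C : ℝ, 1 ≤ C ∧
    ∀ μ : Measure ℝ, IsProbabilityMeasure μ → μ (Set.Icc (-1) 1)ᶜ = 0 →
    ∀ lam : ℝ, 0 < lam → lam ≤ 1 / C →
      Concl 3 C0 μ lam η (C * (lam ^ 3 * Real.log (1 / lam) ^ 2)) (lam ^ K) := by
  obtain ⟨C0, hC0, H⟩ := coup_ext 3 le_rfl
  refine ⟨C0, hC0, ?_⟩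
  intro η hη hη1 K
  obtain ⟨C, hC, HC⟩ := up3 η hη hη1 (K + 3)
  refine ⟨C + 3, by linarith, ?_⟩
  intro μ hμp hμ lam hlam hlamC
  have hl3 : lam ≤ 1 / 3 := hlamC.trans (by gcongr; linarith)
  have hlC : lam ≤ 1 / C := hlamC.trans (by gcongr; linarith)
  set Λ := Real.log (1 / lam) with hΛ
  have hΛ1 : 1 ≤ Λ := by
    rw [hΛ, Real.le_log_iff_exp_le (by positivity)]
    have h1 : (3 : ℝ) ≤ 1 / lam := by rw [le_div_iff₀ hlam]; linarith
    linarith [Real.exp_one_lt_d9]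
  obtain ⟨E, hE, P, h0, h1, h2, h3, h4⟩ := H μ lam η _ _ hη hη1 (HC μ hμ lam hlam hlC)
  rw [← hΛ] at h3
  have ht0 : 0 ≤ C * (lam ^ 3 * Λ ^ 2) := by positivity
  have hpow : lam ^ (K + 3) ≤ lam ^ 3 * Λ ^ 2 := by
    have g1 : lam ^ K ≤ 1 := pow_le_one₀ hlam.le (by linarith)
    have g2 : 1 ≤ Λ ^ 2 := one_le_pow₀ hΛ1
    have g3 : 0 < lam ^ 3 := by positivity
    rw [pow_add]
    have g4 : lam ^ K * lam ^ 3 ≤ 1 * lam ^ 3 := mul_le_mul_of_nonneg_right g1 g3.le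
    nlinarith
  have hm := mean_le P _ _ ht0 (by positivity) h3 (h4.mono fun p hp => hp.1)
  refine ⟨E, hE, P, h0, h1, h2, hm.trans (ENNReal.ofReal_le_ofReal (by linarith)), ?_, h4⟩
  refine (measureReal_mono fun p hp => ?_).trans (h3.trans ?_)
  · have hp' : (C + 3) * (lam ^ 3 * Λ ^ 2) < |p.2 0 - p.1 0| := hp
    have : 0 ≤ lam ^ 3 * Λ ^ 2 := by positivity
    show C * (lam ^ 3 * Λ ^ 2) < |p.2 0 - p.1 0|
    linarith
  · exact pow_le_pow_of_le_one hlam.le (by linarith) (by omega)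

theorem main4 : ∃ C0 : ℝ, 0 < C0 ∧ ∀ η : ℝ, 0 < η → η ≤ 1 → ∃ c : ℝ, 0 < c ∧
    ∀ μ : Measure ℝ, IsProbabilityMeasure μ → μ (Set.Icc (-1) 1)ᶜ = 0 →
    ∀ lam : ℝ, 0 < lam → lam ≤ c →
      Concl 4 C0 μ lam η (Real.exp (-(c / lam))) (Real.exp (-(c / lam))) := by
  obtain ⟨C0, hC0, H⟩ := coup_ext 4 (by norm_num)
  refine ⟨C0, hC0, ?_⟩
  intro η hη hη1
  obtain ⟨c, hc, hc1, HC⟩ := up4 η hη hη1
  refine ⟨c / 3, by positivity, ?_⟩
  intro μ hμp hμ lam hlam hlamc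
  obtain ⟨E, hE, P, h0, h1, h2, h3, h4⟩ := H μ lam η _ _ hη hη1 (HC μ hμ lam hlam (by linarith))
  have hm := mean_le P _ _ (Real.exp_pos _).le (Real.exp_pos _).le h3 (h4.mono fun p hp => hp.1)
  have e0 : c / 3 / lam = c / lam / 3 := by ring
  have hcl : 3 ≤ c / lam := by rw [le_div_iff₀ hlam]; linarith
  have e1 : Real.exp (-(c / lam)) ≤ Real.exp (-(c / 3 / lam)) := by
    apply Real.exp_le_exp.2
    rw [e0]
    linarith
  have e2 : 4 * Real.exp (-(c / lam)) ≤ Real.exp (-(c / 3 / lam)) := by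
    have g1 : Real.exp (-(c / lam)) ≤ Real.exp (-(c / 3 / lam)) * Real.exp (-2) := by
      rw [← Real.exp_add]
      apply Real.exp_le_exp.2
      rw [e0]
      linarith
    have g2 : 4 * Real.exp (-2) ≤ 1 := by
      have g3 := Real.add_one_le_exp (1 : ℝ)
      have g4 : Real.exp 2 = Real.exp 1 * Real.exp 1 := by rw [← Real.exp_add]; norm_num
      have g5 : 4 ≤ Real.exp 2 := by rw [g4]; nlinarith
      rw [Real.exp_neg]
      rw [← div_eq_mul_inv, div_le_one (Real.exp_pos _)]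
      exact g5
    have g3 := Real.exp_pos (-(c / 3 / lam))
    nlinarith
  refine ⟨E, hE, P, h0, h1, h2, hm.trans (ENNReal.ofReal_le_ofReal (by linarith)), ?_, h4⟩
  refine (measureReal_mono fun p hp => ?_).trans (h3.trans e1)
  have hp' : Real.exp (-(c / 3 / lam)) < |p.2 0 - p.1 0| := hp
  show Real.exp (-(c / lam)) < |p.2 0 - p.1 0|
  linarith

end Pool.Agent.U874.Tr
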