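import Pool.Agent.H4R2.AE.Core2
import Pool.Agent.U874.And.Cpt

/-! # Flat ground states after small changes of the potential: tori -/

set_option autoImplicit false

open Filter Topology MeasureTheory

namespace Pool.Agent.U874.Tr

open Pool.Agent.H4R2.AE

/-- exact flat state -/
def FlatX {d L : ℕ} (lam η E : ℝ) (V : T d L → ℝ) : Prop :=
  ∃ ψ : T d L → ℝ, (∀ x, 1 ≤ ψ x ∧ ψ x ≤ 1 + η) ∧ ∀ x, Hop lam V ψ x = E * ψ x

lemma sum_green {d L : ℕ} [NeZero L] (k : ℝ) (u Gr : T d L → ℝ) (x0 : T d L)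
    (h : ∀ x, LapW u Gr x + k * Gr x = if x = x0 then 1 else 0) : k * ∑ x, Gr x = 1 := by
  have h1 : ∑ x, (LapW u Gr x + k * Gr x) = 1 := by
    rw [Finset.sum_congr rfl fun x _ => h x]
    simp
  rw [Finset.sum_add_distrib, Lin.sum_lapW, zero_add, ← Finset.mul_sum] at h1
  exact h1

/-- splitting the sum of squares at a level -/
lemma sq_split {d L : ℕ} [NeZero L] (k s : ℝ) (hk : 0 < k) (hs : 0 ≤ s) (u Gr : T d L → ℝ)
    (x0 : T d L) (hG : ∀ x, 0 ≤ Gr x)
    (h : ∀ x, LapW u Gr x + k * Gr x = if x = x0 then 1 else 0) :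
    ∑ x, Gr x ^ 2 ≤ ∑ x ∈ Finset.univ.filter (fun x => s ≤ Gr x), Gr x ^ 2 + s / k := by
  have h1 := sum_green k u Gr x0 h
  rw [← Finset.sum_filter_add_sum_filter_not Finset.univ (fun x => s ≤ Gr x)]
  have h2 : ∑ x ∈ Finset.univ.filter (fun x => ¬ s ≤ Gr x), Gr x ^ 2 ≤ s * ∑ x, Gr x := by
    calc ∑ x ∈ Finset.univ.filter (fun x => ¬ s ≤ Gr x), Gr x ^ 2
        ≤ ∑ x ∈ Finset.univ.filter (fun x => ¬ s ≤ Gr x), s * Gr x := by
          refine Finset.sum_le_sum fun x hx => ?_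
          have h3 := (Finset.mem_filter.1 hx).2
          have h4 := hG x
          push Not at h3
          nlinarith
      _ ≤ ∑ x, s * Gr x := Finset.sum_le_sum_of_subset_of_nonneg (Finset.filter_subset _ _)
          fun x _ _ => mul_nonneg hs (hG x)
      _ = _ := by rw [Finset.mul_sum]
  have h3 : s * ∑ x, Gr x = s / k := by
    rw [eq_div_iff hk.ne', mul_assoc, mul_comm _ k, h1, mul_one]
  linarith

theorem green3 : ∃ A : ℝ, 1 ≤ A ∧ ∀ (L : ℕ) [NeZero L] (k : ℝ), 0 < k → 1 / (8 * (L : ℝ) ^ 2) ≤ k →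
    ∀ (u Gr : T 3 L → ℝ) (x0 : T 3 L), (∀ x, 1 / 2 ≤ u x) → (∀ x, 0 ≤ Gr x) →
      (∀ x, LapW u Gr x + k * Gr x = if x = x0 then 1 else 0) →
      ∑ z, Gr z ^ 2 ≤ A / Real.sqrt k := by
  obtain ⟨A, hA, HA⟩ := Weak.weak 3 (by norm_num)
  have hA0 : 0 < A := by linarith
  refine ⟨3 * A + 1, by linarith, ?_⟩
  intro L _ k hk0 hk u Gr x0 hu hGr hh
  have h1 := HA L u (fun _ => k) Gr x0 hu (fun _ => hk) hGr hh
  have hp : ((3 : ℕ) : ℝ) / (((3 : ℕ) : ℝ) - 2) = 3 := by norm_num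
  rw [hp] at h1
  set s := Real.sqrt k with hs
  have hs0 : 0 < s := Real.sqrt_pos.2 hk0
  have hsk : s * s = k := Real.mul_self_sqrt hk0.le
  have h2 := sq_split k s hk0 hs0.le u Gr x0 hGr hh
  have h3 := Layer.layer_sort Gr 3 A (by norm_num) hGr hA0.le h1 (fun y => y ^ 2)
    (fun x hx y hy hxy => by
      have hx' : (0 : ℝ) ≤ x := hx
      change x ^ 2 ≤ y ^ 2
      gcongr) _ (Finset.univ.filter fun x => s ≤ Gr x) rfl
  set n := (Finset.univ.filter fun x => s ≤ Gr x).card with hn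
  have hr : ∀ j : ℕ, (fun y : ℝ => y ^ 2) ((A / ((j : ℝ) + 1)) ^ (1 / (3 : ℝ))) =
      A ^ ((2 : ℝ) / 3) * ((j : ℝ) + 1) ^ (-((2 : ℝ) / 3)) := by
    intro j
    have hj : (0 : ℝ) < (j : ℝ) + 1 := by positivity
    change ((A / ((j : ℝ) + 1)) ^ (1 / (3 : ℝ))) ^ 2 = _
    rw [← Real.rpow_natCast, ← Real.rpow_mul (by positivity), Real.div_rpow hA0.le hj.le,
      Real.rpow_neg hj.le, ← div_eq_mul_inv]
    norm_num
  rw [Finset.sum_congr rfl fun j _ => hr j, ← Finset.mul_sum] at h3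
  have h4 := Layer.layer_l1 ((2 : ℝ) / 3) (by norm_num) (by norm_num) n
  have h5 : (n : ℝ) * s ^ (3 : ℝ) ≤ A := h1 s hs0
  have h6 : (n : ℝ) ^ ((1 : ℝ) / 3) * s ≤ A ^ ((1 : ℝ) / 3) := by
    have h7 := Real.rpow_le_rpow (by positivity) h5 (by norm_num : (0 : ℝ) ≤ 1 / 3)
    rw [Real.mul_rpow (Nat.cast_nonneg n) (by positivity), ← Real.rpow_mul hs0.le] at h7
    norm_num at h7
    norm_num
    exact h7
  have h7 : A ^ ((2 : ℝ) / 3) * A ^ ((1 : ℝ) / 3) = A := by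
    rw [← Real.rpow_add hA0]; norm_num
  have h8 : ∑ x ∈ Finset.univ.filter (fun x => s ≤ Gr x), Gr x ^ 2 ≤ 3 * A / s := by
    rw [le_div_iff₀ hs0]
    calc (∑ x ∈ Finset.univ.filter (fun x => s ≤ Gr x), Gr x ^ 2) * s
        ≤ (A ^ ((2 : ℝ) / 3) * ((n : ℝ) ^ (1 - (2 : ℝ) / 3) / (1 - (2 : ℝ) / 3))) * s := by
          refine mul_le_mul_of_nonneg_right (h3.trans ?_) hs0.le
          exact mul_le_mul_of_nonneg_left h4 (by positivity)
      _ = 3 * A ^ ((2 : ℝ) / 3) * ((n : ℝ) ^ ((1 : ℝ) / 3) * s) := by norm_num; ring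
      _ ≤ 3 * A ^ ((2 : ℝ) / 3) * A ^ ((1 : ℝ) / 3) := by gcongr
      _ = 3 * A := by rw [mul_assoc, h7]
  have h9 : s / k = 1 / s := by
    rw [← hsk]; field_simp
  rw [h9] at h2
  calc ∑ x, Gr x ^ 2 ≤ 3 * A / s + 1 / s := h2.trans (by linarith)
    _ = (3 * A + 1) / s := by ring

theorem green4 : ∃ A : ℝ, 1 ≤ A ∧ ∀ (L : ℕ) [NeZero L] (k : ℝ), 0 < k → k ≤ 1 →
    1 / (8 * (L : ℝ) ^ 2) ≤ k →
    ∀ (u Gr : T 4 L → ℝ) (x0 : T 4 L), (∀ x, 1 / 2 ≤ u x) → (∀ x, 0 ≤ Gr x) →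
      (∀ x, LapW u Gr x + k * Gr x = if x = x0 then 1 else 0) →
      ∑ z, Gr z ^ 2 ≤ A * (1 + Real.log (1 / k)) := by
  obtain ⟨A, hA, HA⟩ := Weak.weak 4 (by norm_num)
  have hA0 : 0 < A := by linarith
  have hlA : 0 ≤ Real.log A := Real.log_nonneg hA
  refine ⟨1 + A * (2 + Real.log A), by nlinarith, ?_⟩
  intro L _ k hk0 hk1 hk u Gr x0 hu hGr hh
  have h1 := HA L u (fun _ => k) Gr x0 hu (fun _ => hk) hGr hh
  have hp : ((4 : ℕ) : ℝ) / (((4 : ℕ) : ℝ) - 2) = 2 := by norm_num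
  rw [hp] at h1
  have h2 := sq_split k k hk0 hk0.le u Gr x0 hGr hh
  rw [div_self hk0.ne'] at h2
  have hlk : 0 ≤ Real.log (1 / k) := Real.log_nonneg (by rw [le_div_iff₀ hk0]; linarith)
  have h3 := Layer.layer_sort Gr 2 A (by norm_num) hGr hA0.le h1 (fun y => y ^ 2)
    (fun x hx y hy hxy => by
      have hx' : (0 : ℝ) ≤ x := hx
      change x ^ 2 ≤ y ^ 2
      gcongr) _ (Finset.univ.filter fun x => k ≤ Gr x) rfl
  set n := (Finset.univ.filter fun x => k ≤ Gr x).card with hn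
  have hr : ∀ j : ℕ, (fun y : ℝ => y ^ 2) ((A / ((j : ℝ) + 1)) ^ (1 / (2 : ℝ))) =
      A * ((j : ℝ) + 1)⁻¹ := by
    intro j
    have hj : (0 : ℝ) < (j : ℝ) + 1 := by positivity
    change ((A / ((j : ℝ) + 1)) ^ (1 / (2 : ℝ))) ^ 2 = _
    rw [← Real.rpow_natCast, ← Real.rpow_mul (by positivity)]
    norm_num
    rw [div_eq_mul_inv]
  rw [Finset.sum_congr rfl fun j _ => hr j, ← Finset.mul_sum] at h3
  have h5 : (n : ℝ) * k ^ (2 : ℝ) ≤ A := h1 k hk0
  have h6 : ∑ j ∈ Finset.range n, ((j : ℝ) + 1)⁻¹ ≤ 1 + (Real.log A + 2 * Real.log (1 / k)) := by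
    rcases Nat.eq_zero_or_pos n with h0 | h0
    · rw [h0]; simp only [Finset.range_zero, Finset.sum_empty]; linarith
    · have h7 := harmonic_le_one_add_log n
      have e : ((harmonic n : ℚ) : ℝ) = ∑ j ∈ Finset.range n, ((j : ℝ) + 1)⁻¹ := by
        unfold harmonic
        push_cast
        rfl
      rw [e] at h7
      have hn0 : (0 : ℝ) < n := by exact_mod_cast h0
      have h8 : Real.log n ≤ Real.log A + 2 * Real.log (1 / k) := by
        have h9 : (n : ℝ) ≤ A * (1 / k) ^ 2 := by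
          rw [Real.rpow_two] at h5
          rw [one_div, inv_pow, ← div_eq_mul_inv, le_div_iff₀ (by positivity)]
          exact h5
        have h10 := Real.log_le_log hn0 h9
        rw [Real.log_mul hA0.ne' (by positivity), Real.log_pow] at h10
        push_cast at h10
        exact h10
      linarith
  have h7 : ∑ x ∈ Finset.univ.filter (fun x => k ≤ Gr x), Gr x ^ 2 ≤
      A * (1 + (Real.log A + 2 * Real.log (1 / k))) :=
    h3.trans (mul_le_mul_of_nonneg_left h6 hA0.le)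
  have h8 : 0 ≤ A * Real.log A * Real.log (1 / k) := by positivity
  nlinarith

/-- the torus theorem -/
theorem torus_gen (d L : ℕ) [NeZero L] (κ : ℝ) (hκ : 0 < κ) (R : ℝ)
    (hR : 0 ≤ R) (μ : Measure ℝ) [IsProbabilityMeasure μ] (lam δ : ℝ) (hlam : 0 < lam)
    (hδ : 0 < δ) (hδ' : δ ≤ 1 / 8)
    (hG : ∀ (u Gr : T d L → ℝ) (x0 : T d L), (∀ x, 1 / 2 ≤ u x) → (∀ x, 0 ≤ Gr x) →
      (∀ x, LapW u Gr x + κ * Real.exp (-(4 * δ)) * Gr x = if x = x0 then 1 else 0) →
      ∑ z, Gr z ^ 2 ≤ R)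
    (θ : ℝ) (hθ : 0 < θ) :
    ∃ E : ℝ, |E| ≤ lam ∧ ∃ Φ : (T d L → ℝ) → (T d L → ℝ), Measurable Φ ∧
      (∀ (V : T d L → ℝ) (a : T d L), Φ (fun x => V (x + a)) = fun x => Φ V (x + a)) ∧
      (∀ x, (Measure.pi fun _ : T d L => μ).real {V | 2 * δ * (κ / lam) < |Φ V x - V x|} ≤
        2 * Real.exp (-(θ * δ) + 36 * R * lam ^ 2 * θ ^ 2)) ∧
      ∀ V : T d L → ℝ, (∀ x, |V x| ≤ 1) → (∀ x, |Φ V x - V x| ≤ 2 + 2 * δ * (κ / lam)) ∧
        FlatX lam (8 * δ) E (Φ V) := by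
  obtain ⟨E, hE, hE0⟩ := Good.good_E (d := d) (L := L) lam δ κ hlam hδ hκ μ
  have hG' : ∀ (u Gr : T d L → ℝ) (x0 : T d L), (∀ x, 1 / 2 ≤ u x) → (∀ x, 0 ≤ Gr x) →
      (∀ x, LapW u Gr x + κ * Real.exp (-(4 * δ)) * Gr x = if x = x0 then 1 else 0) →
      ∀ θ : ℝ, 0 < θ → ∑ z, min ((θ * Gr z) ^ 2) (θ * Gr z) ≤ R * θ ^ (2 : ℝ) := by
    intro u Gr x0 hu hGr hh θ hθ
    have h1 := hG u Gr x0 hu hGr hh
    calc ∑ z, min ((θ * Gr z) ^ 2) (θ * Gr z) ≤ ∑ z, (θ * Gr z) ^ 2 :=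
          Finset.sum_le_sum fun z _ => min_le_left _ _
      _ = θ ^ 2 * ∑ z, Gr z ^ 2 := by
          rw [Finset.mul_sum]; exact Finset.sum_congr rfl fun z _ => by ring
      _ ≤ θ ^ 2 * R := mul_le_mul_of_nonneg_left h1 (by positivity)
      _ = _ := by rw [Real.rpow_two]; ring
  have htail := fun x => Goodt.goodt_tail κ hκ 2 R (by norm_num) hR μ lam δ hlam hδ hδ' hG' θ hθ E
    hE hE0 x
  have hκl : 0 < κ / lam := by positivity
  refine ⟨E, hE, fun V x => Modi.Phi lam δ κ E V x + κ / lam * Good.W lam δ κ E V x, ?_, ?_, ?_, ?_⟩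
  · refine measurable_pi_lambda _ fun x => ?_
    exact ((measurable_pi_apply x).comp (Modi.modi_meas lam δ κ E hlam hδ hκ hE)).add
      ((Good.good_cont lam δ κ E hlam hδ hκ hE x).measurable.const_mul _)
  · intro V a
    funext x
    have h1 := congrFun (Modi.modi_cov lam δ κ E hlam hδ hκ hE V a) x
    change Modi.Phi lam δ κ E (fun x => V (x + a)) x +
      κ / lam * Good.W lam δ κ E (fun x => V (x + a)) x = _
    rw [h1, Good.good_shift lam δ κ E hlam hδ hκ hE V a x]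
  · intro x
    refine (measureReal_mono (fun V hV => ?_)).trans ((htail x).trans (le_of_eq ?_))
    · by_contra h
      simp only [Set.mem_ofPred_eq, not_le] at h
      simp only [Set.mem_ofPred_eq] at hV
      have h1 : Modi.Phi lam δ κ E V x = V x := by
        unfold Modi.Phi
        rw [Modi.modi_b0_zero δ _ h, add_zero]
      rw [h1, add_sub_cancel_left, abs_mul, abs_of_pos hκl] at hV
      nlinarith
    · congr 2
      rw [Real.rpow_two]
      ring
  · intro V hV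
    obtain ⟨h1, w0, hw0, -⟩ := Modi.modi_sol lam δ κ E hlam hδ hκ hE V hV
    have hW := Good.good_W lam δ κ E V hlam hδ hκ hE
    rw [Good.good_clamp_eq V hV] at hW
    have hb := fun x => Good.good_bound lam δ κ E hlam hδ hκ hE V x
    set w := Good.W lam δ κ E V with hw
    refine ⟨fun x => ?_, fun x => Real.exp (2 * δ) * Real.exp (w x), fun x => ?_, fun x => ?_⟩
    · have h2 := h1 x
      have h3 := hb x
      calc |Modi.Phi lam δ κ E V x + κ / lam * w x - V x|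
          = |(Modi.Phi lam δ κ E V x - V x) + κ / lam * w x| := by ring_nf
        _ ≤ |Modi.Phi lam δ κ E V x - V x| + |κ / lam * w x| := abs_add_le _ _
        _ ≤ 2 + κ / lam * (2 * δ) := by
            rw [abs_mul, abs_of_pos hκl]
            gcongr
        _ = _ := by ring
    · have h3 := abs_le.1 (hb x)
      change 1 ≤ Real.exp (2 * δ) * Real.exp (w x) ∧ Real.exp (2 * δ) * Real.exp (w x) ≤ 1 + 8 * δ
      rw [← Real.exp_add]
      constructor
      · apply Real.one_le_exp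
        linarith
      · have h4 : Real.exp (2 * δ + w x) ≤ Real.exp (4 * δ) := Real.exp_le_exp.2 (by linarith)
        have h5 : Real.exp (4 * δ) ≤ 1 + 8 * δ := by
          have h6 := Real.exp_bound' (x := 4 * δ) (by positivity) (by linarith) (n := 2) (by norm_num)
          norm_num [Finset.sum_range_succ, Nat.factorial] at h6
          nlinarith
        exact h4.trans h5
    · have h2 : ∀ y, ∑ i : Fin d, ((1 - Real.exp (w (y + Pi.single i 1) - w y)) +
          (1 - Real.exp (w (y - Pi.single i 1) - w y))) +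
          lam * (Modi.Phi lam δ κ E V y + κ / lam * w y) - E + 0 * w y = 0 := by
        intro y
        have h3 := hW y
        rw [Modi.modi_b0_beta] at h3
        unfold Modi.Phi
        have h4 : lam * (κ / lam * w y) = κ * w y := by field_simp
        linarith
      have h3 := Core.hop_eq lam E 0 (fun y => Modi.Phi lam δ κ E V y + κ / lam * w y) w h2 x
      rw [zero_mul, sub_zero] at h3
      have h4 : Hop lam (fun y => Modi.Phi lam δ κ E V y + κ / lam * w y)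
          (fun y => Real.exp (2 * δ) * Real.exp (w y)) x =
          Real.exp (2 * δ) * Hop lam (fun y => Modi.Phi lam δ κ E V y + κ / lam * w y)
            (fun y => Real.exp (w y)) x := by
        unfold Hop
        simp only
        rw [mul_add (Real.exp (2 * δ)), Finset.mul_sum]
        congr 1
        · exact Finset.sum_congr rfl fun i _ => by ring
        · ring
      rw [h4, h3]
      ring

end Pool.Agent.U874.Tr
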