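import Pool.Agent.U874.And.Cpt2
import Pool.Agent.U874.Tr.Up1

/-! # The limit of the laws on the tori -/

set_option autoImplicit false

open MeasureTheory Filter Topology

namespace Pool.Agent.U874.Tr

open Pool.Agent.H4R2.AE Pool.Agent.U874.And

/-- the compact set of pairs of bounded potentials -/
def KB (d : ℕ) (b : ℝ) : Set (XX d) :=
  (Set.univ.pi fun _ => Set.Icc (-1 : ℝ) 1) ×ˢ (Set.univ.pi fun _ => Set.Icc (-(1 + b)) (1 + b))

lemma isCompact_KB (d : ℕ) (b : ℝ) : IsCompact (KB d b) :=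
  (isCompact_univ_pi fun _ => isCompact_Icc).prod (isCompact_univ_pi fun _ => isCompact_Icc)

/-- the limit theorem -/
theorem cptB (d : ℕ) (μ : Measure ℝ) [IsProbabilityMeasure μ] (hμ : μ (Set.Icc (-1) 1)ᶜ = 0)
    (lam η r t b : ℝ) (hη1 : η ≤ 1) (hr : 0 ≤ r) (L0 : ℕ)
    (H : ∀ (L : ℕ) [NeZero L], L0 ≤ L → ∃ E : ℝ, |E| ≤ lam ∧
        ∃ Φ : (T d L → ℝ) → (T d L → ℝ), Measurable Φ ∧
        (∀ (V : T d L → ℝ) (a : T d L), Φ (fun x => V (x + a)) = fun x => Φ V (x + a)) ∧
        (∀ x, (Measure.pi fun _ : T d L => μ).real {V | t < |Φ V x - V x|} ≤ r) ∧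
        ∀ V : T d L → ℝ, (∀ x, |V x| ≤ 1) → (∀ x, |Φ V x - V x| ≤ b) ∧
          FlatX lam η E (Φ V)) :
    ∃ E : ℝ, |E| ≤ lam ∧ ∃ P : Measure (XX d), IsProbabilityMeasure P ∧
      P.map Prod.fst = Measure.infinitePi (fun _ : Z d => μ) ∧ (∀ a, P.map (sh a) = P) ∧
      P.real {p | t < |p.2 0 - p.1 0|} ≤ r ∧
      ∀ᵐ p ∂P, (∀ x, |p.1 x| ≤ 1) ∧ (∀ x, |p.2 x - p.1 x| ≤ b) ∧ p ∈ FS lam η E 0 := by
  have hne : ∀ n : ℕ, NeZero (L0 + n + 1) := fun n => ⟨Nat.succ_ne_zero _⟩
  choose E hE Φ hΦm hΦs hΦr hΦ using fun n : ℕ => H (L0 + n + 1) (by omega)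
  -- the laws
  set Q : ℕ → Measure (XX d) := fun n =>
    (Measure.pi fun _ : T d (L0 + n + 1) => μ).map (per (L0 + n + 1) (Φ n)) with hQ
  have hQp : ∀ n, IsProbabilityMeasure (Q n) := fun n =>
    Measure.isProbabilityMeasure_map (measurable_per (L0 + n + 1) (Φ n) (hΦm n)).aemeasurable
  -- almost surely bounded
  have hbd : ∀ n, ∀ᵐ V ∂(Measure.pi fun _ : T d (L0 + n + 1) => μ), ∀ x, |V x| ≤ 1 := by
    intro n
    rw [ae_all_iff]
    intro x
    have h1 : ∀ᵐ v ∂μ, |v| ≤ 1 := by
      rw [ae_iff]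
      refine measure_mono_null (fun v hv => ?_) hμ
      simp only [Set.mem_ofPred_eq, not_le] at hv
      simp only [Set.mem_compl_iff, Set.mem_Icc, not_and_or, not_le]
      rcases lt_abs.1 hv with h | h
      · right; exact h
      · left; linarith
    exact (measurePreserving_eval (fun _ : T d (L0 + n + 1) => μ) x).quasiMeasurePreserving.ae h1
  have hQK : ∀ n, Q n (KB d b)ᶜ = 0 := by
    intro n
    have h2 : ∀ᵐ p ∂(Q n), p ∈ KB d b := by
      rw [hQ]
      refine (ae_map_iff (measurable_per (L0 + n + 1) (Φ n) (hΦm n)).aemeasurable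
        (isCompact_KB d b).isClosed.measurableSet).2 ?_
      filter_upwards [hbd n] with V hV
      have h3 := (hΦ n V hV).1
      refine ⟨fun x _ => abs_le.1 (hV _), fun x _ => ?_⟩
      have h4 := abs_le.1 (hV (q (L0 + n + 1) x))
      have h5 := abs_le.1 (h3 (q (L0 + n + 1) x))
      simp only [per, Set.mem_Icc]
      constructor <;> linarith
    exact h2
  -- the ultrafilter limit
  set U : Filter ℕ := (hyperfilter ℕ : Filter ℕ) with hU
  have hUt : ∀ {p : ℕ → Prop}, (∀ᶠ n in atTop, p n) → ∀ᶠ n in U, p n := fun h =>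
    Nat.hyperfilter_le_atTop h
  set Qp : ℕ → ProbabilityMeasure (XX d) := fun n => ⟨Q n, hQp n⟩ with hQp'
  have hcomp := isCompact_setOfPred_probabilityMeasure_mass_eq_compl_isCompact_le
    (E := XX d) (u := fun _ : ℕ => (0 : NNReal)) (K := fun _ : ℕ => KB d b) tendsto_const_nhds
    (fun _ => isCompact_KB d b) (Or.inr monotone_const)
  obtain ⟨Pp, hPp, hPle⟩ := hcomp.ultrafilter_le_nhds ((hyperfilter ℕ : Ultrafilter ℕ).map Qp)
    (by
      rw [Ultrafilter.coe_map, le_principal_iff, mem_map]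
      refine Filter.Eventually.of_forall fun (n : ℕ) _ => ?_
      have : (Qp n) (KB d b)ᶜ = 0 := by
        rw [ProbabilityMeasure.null_iff_toMeasure_null]
        exact hQK n
      simpa using this.le)
  have hPt : Tendsto Qp U (𝓝 Pp) := hPle
  obtain ⟨E', hE', hEle⟩ := (isCompact_Icc (a := -lam) (b := lam)).ultrafilter_le_nhds
    ((hyperfilter ℕ : Ultrafilter ℕ).map E)
    (by
      rw [Ultrafilter.coe_map, le_principal_iff, mem_map]
      exact Filter.Eventually.of_forall fun (n : ℕ) => abs_le.1 (hE n))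
  have hEt : Tendsto E U (𝓝 E') := hEle
  -- closed sets
  have hclosed : ∀ F : Set (XX d), IsClosed F → (∀ᶠ n in U, Q n F = 1) → (Pp : Measure (XX d)) F = 1 := by
    intro F hF h
    have h1 := ProbabilityMeasure.limsup_measure_closed_le_of_tendsto hPt hF
    have h2 : (U.limsup fun i => (Qp i : Measure (XX d)) F) = 1 := by
      have h3 : (U.limsup fun i => (Qp i : Measure (XX d)) F) = U.limsup fun _ => (1 : ENNReal) :=
        limsup_congr h
      rw [h3, limsup_const]
    rw [h2] at h1
    exact le_antisymm prob_le_one h1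
  refine ⟨E', abs_le.2 hE', (Pp : Measure (XX d)), inferInstance, ?_, ?_, ?_, ?_⟩
  · -- first marginal
    have hproj : IsProjectiveLimit ((Pp : Measure (XX d)).map Prod.fst)
        (fun I : Finset (Z d) => Measure.pi fun _ : I => μ) := by
      intro I
      rw [Measure.map_map (by fun_prop) measurable_fst]
      obtain ⟨L1, hL1⟩ := q_injOn I
      have hc : Continuous (fun p : XX d => I.restrict p.1) := by fun_prop
      have h1 := ProbabilityMeasure.tendsto_map_of_tendsto_of_continuous Qp Pp hPt hc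
      have h2 : ∀ᶠ n in U, (Qp n).map hc.measurable.aemeasurable =
          (⟨Measure.pi fun _ : I => μ, inferInstance⟩ : ProbabilityMeasure (I → ℝ)) := by
        apply hUt
        filter_upwards [eventually_ge_atTop L1] with n hn
        apply ProbabilityMeasure.toMeasure_injective
        rw [ProbabilityMeasure.toMeasure_map]
        exact per_fst (L0 + n + 1) (Φ n) (hΦm n) μ I (hL1 (L0 + n + 1) (by omega))
      have h3 : Tendsto (fun n => (Qp n).map hc.measurable.aemeasurable) U
          (𝓝 (⟨Measure.pi fun _ : I => μ, inferInstance⟩ : ProbabilityMeasure (I → ℝ))) :=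
        (tendsto_congr' h2).2 tendsto_const_nhds
      have h4 := tendsto_nhds_unique h1 h3
      have h5 := congrArg (fun m : ProbabilityMeasure (I → ℝ) => (m : Measure (I → ℝ))) h4
      simp only [ProbabilityMeasure.toMeasure_map] at h5
      exact h5
    exact hproj.unique (Measure.isProjectiveLimit_infinitePi fun _ : Z d => μ)
  · intro a
    have h1 := ProbabilityMeasure.tendsto_map_of_tendsto_of_continuous Qp Pp hPt (continuous_sh a)
    have h2 : (fun n => (Qp n).map (continuous_sh a).measurable.aemeasurable) = Qp := by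
      funext n
      apply ProbabilityMeasure.toMeasure_injective
      rw [ProbabilityMeasure.toMeasure_map]
      exact per_shift (L0 + n + 1) (Φ n) (hΦm n) (hΦs n) μ a
    rw [h2] at h1
    have h4 := tendsto_nhds_unique h1 hPt
    have h5 := congrArg (fun m : ProbabilityMeasure (XX d) => (m : Measure (XX d))) h4
    simp only [ProbabilityMeasure.toMeasure_map] at h5
    exact h5
  · -- the density of the changes
    have hopen : IsOpen {p : XX d | t < |p.2 0 - p.1 0|} := by
      refine isOpen_lt ?_ ?_ <;> fun_prop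
    have h1 := ProbabilityMeasure.le_liminf_measure_open_of_tendsto hPt hopen
    have h2 : (U.liminf fun i => (Qp i : Measure (XX d)) {p : XX d | t < |p.2 0 - p.1 0|}) ≤
        ENNReal.ofReal r := by
      refine (liminf_le_liminf (v := fun _ => ENNReal.ofReal r)
        (Filter.Eventually.of_forall fun n => ?_)).trans (by rw [liminf_const])
      have h3 : (Qp n : Measure (XX d)) {p : XX d | t < |p.2 0 - p.1 0|} =
          (Measure.pi fun _ : T d (L0 + n + 1) => μ) {V | t < |Φ n V (q (L0 + n + 1) 0) - V (q (L0 + n + 1) 0)|} := by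
        rw [hQp']
        simp only [ProbabilityMeasure.coe_mk]
        rw [hQ]
        simp only
        rw [Measure.map_apply (measurable_per (L0 + n + 1) (Φ n) (hΦm n)) hopen.measurableSet]
        rfl
      rw [h3]
      have h4 := hΦr n (q (L0 + n + 1) 0)
      rw [← ENNReal.ofReal_toReal (measure_ne_top (Measure.pi fun _ : T d (L0 + n + 1) => μ)
        {V | t < |Φ n V (q (L0 + n + 1) 0) - V (q (L0 + n + 1) 0)|})]
      exact ENNReal.ofReal_le_ofReal h4
    exact ENNReal.toReal_le_of_le_ofReal hr (h1.trans h2)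
  · have hone : ∀ (n : ℕ) (F : Set (XX d)), IsClosed F →
        (∀ V : T d (L0 + n + 1) → ℝ, (∀ x, |V x| ≤ 1) → per (L0 + n + 1) (Φ n) V ∈ F) → Q n F = 1 := by
      intro n F hF h
      rw [← prob_compl_eq_zero_iff₀ hF.measurableSet.nullMeasurableSet]
      have h2 : ∀ᵐ p ∂(Q n), p ∈ F := by
        rw [hQ]
        refine (ae_map_iff (measurable_per (L0 + n + 1) (Φ n) (hΦm n)).aemeasurable
          hF.measurableSet).2 ?_
        filter_upwards [hbd n] with V hV
        exact h V hV
      exact h2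
    have hAE : ∀ F : Set (XX d), IsClosed F → (∀ᶠ n in U, Q n F = 1) →
        ∀ᵐ p ∂(Pp : Measure (XX d)), p ∈ F := by
      intro F hF h
      have h1 := hclosed F hF h
      rw [← prob_compl_eq_zero_iff₀ hF.measurableSet.nullMeasurableSet] at h1
      exact h1
    have hA : ∀ᵐ p ∂(Pp : Measure (XX d)), p ∈ {p : XX d | ∀ x, |p.1 x| ≤ 1} := by
      have hc : IsClosed {p : XX d | ∀ x, |p.1 x| ≤ 1} := by
        simp only [Set.ofPred_forall]
        exact isClosed_iInter fun x => isClosed_le (by fun_prop) continuous_const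
      exact hAE _ hc (Filter.Eventually.of_forall fun n => hone n _ hc fun V hV x => hV _)
    have hB : ∀ᵐ p ∂(Pp : Measure (XX d)), p ∈ {p : XX d | ∀ x, |p.2 x - p.1 x| ≤ b} := by
      have hc : IsClosed {p : XX d | ∀ x, |p.2 x - p.1 x| ≤ b} := by
        simp only [Set.ofPred_forall]
        exact isClosed_iInter fun x => isClosed_le (by fun_prop) continuous_const
      exact hAE _ hc (Filter.Eventually.of_forall fun n => hone n _ hc fun V hV x =>
        (hΦ n V hV).1 _)
    have hC : ∀ m : ℕ, ∀ᵐ p ∂(Pp : Measure (XX d)), p ∈ FS lam η E' (1 / ((m : ℝ) + 1)) := by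
      intro m
      refine hAE _ (isClosed_FS lam η E' _) ?_
      have hm : (0 : ℝ) < 1 / ((m : ℝ) + 1) / 4 := by positivity
      have e1 : ∀ᶠ n in U, |E n - E'| < 1 / ((m : ℝ) + 1) / 4 := by
        have := Metric.tendsto_nhds.1 hEt _ hm
        filter_upwards [this] with n hn
        rwa [Real.dist_eq] at hn
      filter_upwards [e1] with n h1
      refine hone n _ (isClosed_FS lam η E' _) fun V hV => ?_
      obtain ⟨ψ, h4, h5⟩ := (hΦ n V hV).2
      refine ⟨fun x => ψ (q (L0 + n + 1) x), fun x => h4 _, fun x => ?_⟩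
      have h6 : HopZ lam (per (L0 + n + 1) (Φ n) V).2 (fun x => ψ (q (L0 + n + 1) x)) x =
          E n * ψ (q (L0 + n + 1) x) := by
        rw [← h5 (q (L0 + n + 1) x)]
        exact hop_per lam (Φ n V) ψ x
      rw [h6, ← sub_mul, abs_mul]
      have h7 := h4 (q (L0 + n + 1) x)
      have h8 : |ψ (q (L0 + n + 1) x)| ≤ 2 := by
        rw [abs_of_nonneg (by linarith [h7.1])]
        linarith [h7.2]
      have h9 : |E n - E'| ≤ 1 / ((m : ℝ) + 1) / 2 := by linarith
      calc |E n - E'| * |ψ (q (L0 + n + 1) x)| ≤ 1 / ((m : ℝ) + 1) / 2 * 2 :=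
            mul_le_mul h9 h8 (abs_nonneg _) (by positivity)
        _ = 1 / ((m : ℝ) + 1) := by ring
    filter_upwards [hA, hB, ae_all_iff.2 hC] with p h1 h2 h3
    exact ⟨h1, h2, FS_inter lam η E' p h3⟩

end Pool.Agent.U874.Tr
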