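import Pool.Agent.U874.Tr.Up2

/-! # Small changes produce a flat ground state: parameters in dimensions three and four -/

set_option autoImplicit false

open MeasureTheory Filter Topology

namespace Pool.Agent.U874.Tr

open Pool.Agent.H4R2.AE Pool.Agent.U874.And

/-- conclusion for the coupling -/
def Coup (d : ℕ) (μ : Measure ℝ) (lam η t r : ℝ) : Prop :=
  ∃ E : ℝ, |E| ≤ lam ∧ ∃ P : Measure (XX d), IsProbabilityMeasure P ∧
      P.map Prod.fst = Measure.infinitePi (fun _ : Z d => μ) ∧ (∀ a, P.map (sh a) = P) ∧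
      P.real {p | t < |p.2 0 - p.1 0|} ≤ r ∧
      ∀ᵐ p ∂P, (∀ x, |p.1 x| ≤ 1) ∧ (∀ x, |p.2 x - p.1 x| ≤ 3) ∧ p ∈ FS lam η E 0

lemma mass_low (δ κ : ℝ) (hδ' : δ ≤ 1 / 8) (hκ : 0 < κ) : κ / 4 ≤ κ * Real.exp (-(4 * δ)) := by
  have h1 := Real.add_one_le_exp (-(4 * δ))
  have h2 : 1 / 4 ≤ Real.exp (-(4 * δ)) := by linarith
  nlinarith

lemma mass_L (κ : ℝ) (hκ : 0 < κ) (L : ℕ) [NeZero L] (hL : ⌈1 / Real.sqrt κ⌉₊ ≤ L) :
    1 / (8 * (L : ℝ) ^ 2) ≤ κ / 4 := by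
  have hs : 0 < Real.sqrt κ := Real.sqrt_pos.2 hκ
  have h1 : 1 / Real.sqrt κ ≤ L := (Nat.le_ceil _).trans (by exact_mod_cast hL)
  have hL0 : (0 : ℝ) < L := lt_of_lt_of_le (by positivity) h1
  rw [div_le_iff₀ hs] at h1
  have h2 : 1 ≤ (L : ℝ) ^ 2 * κ := by
    have h3 : (1 : ℝ) ≤ (L * Real.sqrt κ) ^ 2 := one_le_pow₀ h1
    rw [mul_pow, Real.sq_sqrt hκ.le] at h3
    exact h3
  rw [div_le_iff₀ (by positivity)]
  nlinarith

theorem up3 (η : ℝ) (hη : 0 < η) (hη1 : η ≤ 1) (K : ℕ) : ∃ C : ℝ, 1 ≤ C ∧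
    ∀ (μ : Measure ℝ) [IsProbabilityMeasure μ], μ (Set.Icc (-1) 1)ᶜ = 0 →
    ∀ lam : ℝ, 0 < lam → lam ≤ 1 / C →
      Coup 3 μ lam η (C * (lam ^ 3 * Real.log (1 / lam) ^ 2)) (lam ^ K) := by
  obtain ⟨A, hA, HA⟩ := green3
  obtain ⟨δ, hδ⟩ : ∃ δ, δ = η / 8 := ⟨_, rfl⟩
  have hδ0 : 0 < δ := by rw [hδ]; positivity
  have hδ8 : δ ≤ 1 / 8 := by rw [hδ]; linarith
  obtain ⟨B, hB⟩ : ∃ B, B = 288 * A * (K + 1) / δ ^ 2 := ⟨_, rfl⟩
  have hB0 : 0 < B := by rw [hB]; positivity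
  refine ⟨2 * δ * B ^ 2 + 3, by nlinarith [mul_pos hδ0 (pow_pos hB0 2)], ?_⟩
  intro μ _ hμ lam hlam hlamC
  set C := 2 * δ * B ^ 2 + 3 with hC
  have hC3 : 3 ≤ C := by nlinarith [mul_pos hδ0 (pow_pos hB0 2)]
  have hC0 : 0 < C := by linarith
  have hlC : lam * C ≤ 1 := by rwa [le_div_iff₀ hC0] at hlamC
  have hl3 : lam ≤ 1 / 3 := hlamC.trans (by gcongr)
  set Λ := Real.log (1 / lam) with hΛ
  have hΛ1 : 1 ≤ Λ := by
    rw [hΛ, Real.le_log_iff_exp_le (by positivity)]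
    have h1 : (3 : ℝ) ≤ 1 / lam := by rw [le_div_iff₀ hlam]; linarith
    linarith [Real.exp_one_lt_d9]
  have hΛl : lam * Λ ≤ 1 := by
    have h1 := Real.log_le_sub_one_of_pos (show 0 < 1 / lam by positivity)
    rw [← hΛ] at h1
    have h2 : lam * (1 / lam - 1) = 1 - lam := by field_simp
    nlinarith
  set κ := (B * lam ^ 2 * Λ) ^ 2 with hκd
  have hsq0 : 0 < B * lam ^ 2 * Λ := by positivity
  have hκ0 : 0 < κ := by positivity
  have hsκ : Real.sqrt κ = B * lam ^ 2 * Λ := Real.sqrt_sq hsq0.le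
  have ht : 2 * δ * (κ / lam) ≤ C * (lam ^ 3 * Λ ^ 2) := by
    have e : 2 * δ * (κ / lam) = 2 * δ * B ^ 2 * (lam ^ 3 * Λ ^ 2) := by
      rw [hκd]; field_simp
    rw [e]
    have : 0 ≤ lam ^ 3 * Λ ^ 2 := by positivity
    nlinarith
  have ht1 : C * (lam ^ 3 * Λ ^ 2) ≤ 1 := by
    have e : C * (lam ^ 3 * Λ ^ 2) = (lam * C) * (lam * Λ) ^ 2 := by ring
    rw [e]
    have : (lam * Λ) ^ 2 ≤ 1 := pow_le_one₀ (by positivity) hΛl
    have h0 : 0 ≤ lam * C := by positivity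
    nlinarith [sq_nonneg (lam * Λ)]
  set θ := 2 * (K + 1) * Λ / δ with hθ
  have hθ0 : 0 < θ := by positivity
  set Rr := 2 * A / Real.sqrt κ with hR
  have hR0 : 0 ≤ Rr := by positivity
  unfold Coup
  refine cptB 3 μ hμ lam η (lam ^ K) _ 3 hη1 (by positivity) ⌈1 / Real.sqrt κ⌉₊
    (fun L _ hL => ?_)
  obtain ⟨E, hE, Φ, h1, h2, h3, h4⟩ := torus_gen 3 L κ hκ0 Rr hR0 μ lam δ hlam hδ0 hδ8
    (fun u Gr x0 hu hGr hh => by
      have hk1 := mass_low δ κ hδ8 hκ0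
      have hk0 : 0 < κ * Real.exp (-(4 * δ)) := by positivity
      refine (HA L _ hk0 ((mass_L κ hκ0 L hL).trans hk1) u Gr x0 hu hGr hh).trans ?_
      rw [hR]
      have h5 : Real.sqrt κ / 2 ≤ Real.sqrt (κ * Real.exp (-(4 * δ))) := by
        apply Real.le_sqrt_of_sq_le
        rw [div_pow, Real.sq_sqrt hκ0.le]
        linarith
      have hs : 0 < Real.sqrt κ := Real.sqrt_pos.2 hκ0
      calc A / Real.sqrt (κ * Real.exp (-(4 * δ))) ≤ A / (Real.sqrt κ / 2) := by gcongr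
        _ = _ := by field_simp) θ hθ0
  refine ⟨E, hE, Φ, h1, h2, fun x => ?_, fun V hV => ?_⟩
  · refine (measureReal_mono fun V hV => lt_of_le_of_lt ht hV).trans ((h3 x).trans ?_)
    have e1 : -(θ * δ) + 36 * Rr * lam ^ 2 * θ ^ 2 = -((K + 1 : ℕ) * Λ) := by
      rw [hR, hsκ, hθ, hB]
      push_cast
      field_simp
      ring
    rw [e1]
    have e2 : Real.exp (-((K + 1 : ℕ) * Λ)) = lam ^ (K + 1) := by
      rw [hΛ, one_div, Real.log_inv, mul_neg, neg_neg, ← Real.log_pow, Real.exp_log (by positivity)]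
    rw [e2, pow_succ]
    have : 0 < lam ^ K := by positivity
    nlinarith
  · obtain ⟨g1, g2⟩ := h4 V hV
    refine ⟨fun x => (g1 x).trans (by linarith), ?_⟩
    have e : 8 * δ = η := by rw [hδ]; ring
    rw [← e]
    exact g2

theorem up4 (η : ℝ) (hη : 0 < η) (hη1 : η ≤ 1) : ∃ c : ℝ, 0 < c ∧ c ≤ 1 ∧
    ∀ (μ : Measure ℝ) [IsProbabilityMeasure μ], μ (Set.Icc (-1) 1)ᶜ = 0 →
    ∀ lam : ℝ, 0 < lam → lam ≤ c →
      Coup 4 μ lam η (Real.exp (-(c / lam))) (Real.exp (-(c / lam))) := by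
  obtain ⟨A, hA, HA⟩ := green4
  obtain ⟨δ, hδ⟩ : ∃ δ, δ = η / 8 := ⟨_, rfl⟩
  have hδ0 : 0 < δ := by rw [hδ]; positivity
  have hδ8 : δ ≤ 1 / 8 := by rw [hδ]; linarith
  have hA0 : 0 < A := by linarith
  obtain ⟨c1, hc1⟩ : ∃ c1, c1 = δ / (40 * A) := ⟨_, rfl⟩
  have hc10 : 0 < c1 := by rw [hc1]; positivity
  have hcA : c1 * (40 * A) = δ := by rw [hc1]; field_simp
  have hc11 : c1 ≤ 1 := by nlinarith
  refine ⟨c1 ^ 2 / 16, by positivity, by nlinarith, ?_⟩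
  intro μ _ hμ lam hlam hlamc
  have hl1 : lam ≤ c1 := by nlinarith
  set x := 1 / lam with hx
  have hx0 : 0 < x := by positivity
  have hxl : x * lam = 1 := by rw [hx]; field_simp
  have hxc : 1 ≤ c1 * x := by rw [← hxl, mul_comm c1]; exact mul_le_mul_of_nonneg_left hl1 hx0.le
  have hx16 : 16 ≤ c1 ^ 2 * x := by
    have := mul_le_mul_of_nonneg_left hlamc hx0.le
    rw [hxl] at this
    linarith
  set κ := Real.exp (-(c1 * x)) with hκd
  have hκ0 : 0 < κ := Real.exp_pos _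
  have hκ1 : κ ≤ 1 := Real.exp_le_one_iff.2 (by nlinarith)
  have hcc : c1 ^ 2 / 16 / lam = c1 ^ 2 / 16 * x := by rw [hx]; ring
  have ht : 2 * δ * (κ / lam) ≤ Real.exp (-(c1 ^ 2 / 16 / lam)) := by
    have e : 2 * δ * (κ / lam) = 2 * δ * x * κ := by rw [hx]; ring
    rw [e, hcc]
    have h1 := Real.quadratic_le_exp_of_nonneg (x := c1 * x / 2) (by positivity)
    have h2 : 2 * δ * x ≤ Real.exp (c1 * x / 2) := by nlinarith
    calc 2 * δ * x * κ ≤ Real.exp (c1 * x / 2) * Real.exp (-(c1 * x)) := by gcongr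
      _ = Real.exp (-(c1 * x / 2)) := by rw [← Real.exp_add]; congr 1; ring
      _ ≤ _ := by
        apply Real.exp_le_exp.2
        nlinarith
  set θ := δ / (288 * A * c1) * x with hθ
  have hθ0 : 0 < θ := by positivity
  set Rr := 4 * A * c1 * x with hR
  have hR0 : 0 ≤ Rr := by positivity
  unfold Coup
  refine cptB 4 μ hμ lam η _ _ 3 hη1 (Real.exp_pos _).le ⌈1 / Real.sqrt κ⌉₊
    (fun L _ hL => ?_)
  obtain ⟨E, hE, Φ, h1, h2, h3, h4⟩ := torus_gen 4 L κ hκ0 Rr hR0 μ lam δ hlam hδ0 hδ8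
    (fun u Gr x0 hu hGr hh => by
      have hk1 := mass_low δ κ hδ8 hκ0
      have hk0 : 0 < κ * Real.exp (-(4 * δ)) := by positivity
      have hk2 : κ * Real.exp (-(4 * δ)) ≤ 1 := mul_le_one₀ hκ1 (Real.exp_pos _).le
        (Real.exp_le_one_iff.2 (by linarith))
      refine (HA L _ hk0 hk2 ((mass_L κ hκ0 L hL).trans hk1) u Gr x0 hu hGr hh).trans ?_
      have h5 : Real.log (1 / (κ * Real.exp (-(4 * δ)))) = c1 * x + 4 * δ := by
        rw [hκd, ← Real.exp_add, one_div, Real.log_inv, Real.log_exp]; ring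
      rw [h5, hR]
      have : 1 + (c1 * x + 4 * δ) ≤ 4 * (c1 * x) := by linarith
      calc A * (1 + (c1 * x + 4 * δ)) ≤ A * (4 * (c1 * x)) := by gcongr
        _ = _ := by ring) θ hθ0
  refine ⟨E, hE, Φ, h1, h2, fun y => ?_, fun V hV => ?_⟩
  · refine (measureReal_mono fun V hV => lt_of_le_of_lt ht hV).trans ((h3 y).trans ?_)
    have e1 : -(θ * δ) + 36 * Rr * lam ^ 2 * θ ^ 2 = -(θ * δ / 2) := by
      have e3 : lam ^ 2 * x ^ 2 = 1 := by rw [← mul_pow, mul_comm lam, hxl, one_pow]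
      have e4 : 36 * Rr * lam ^ 2 * θ ^ 2 =
          36 * (4 * A * c1 * x) * (lam ^ 2 * x ^ 2) * (δ / (288 * A * c1)) ^ 2 := by
        rw [hR, hθ]; ring
      rw [e4, e3, hθ]
      field_simp
      ring
    have e2 : 2 * (c1 * x) ≤ θ * δ / 2 := by
      have e3 : θ * δ / 2 = (δ ^ 2 / (576 * A * c1)) * x := by
        rw [hθ]; field_simp; ring
      rw [e3]
      have e4 : 2 * c1 ≤ δ ^ 2 / (576 * A * c1) := by
        rw [le_div_iff₀ (by positivity), ← hcA]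
        have : 0 ≤ c1 ^ 2 * A * (A - 1) := by
          have : 0 ≤ A - 1 := by linarith
          positivity
        nlinarith [mul_pos (pow_pos hc10 2) hA0]
      nlinarith
    rw [e1, hcc]
    have e5 : Real.exp (-(θ * δ / 2)) ≤ Real.exp (-(c1 * x)) * Real.exp (-(c1 * x)) := by
      rw [← Real.exp_add]
      apply Real.exp_le_exp.2
      linarith
    have e6 : Real.exp (-(c1 * x)) ≤ 1 / 2 := by
      rw [Real.exp_neg, inv_eq_one_div]
      have := Real.add_one_le_exp (c1 * x)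
      exact one_div_le_one_div_of_le (by norm_num) (by linarith)
    have e7 : Real.exp (-(c1 * x)) ≤ Real.exp (-(c1 ^ 2 / 16 * x)) := by
      apply Real.exp_le_exp.2
      nlinarith
    have e8 := Real.exp_pos (-(c1 * x))
    nlinarith
  · obtain ⟨g1, g2⟩ := h4 V hV
    have h5 : Real.exp (-(c1 ^ 2 / 16 / lam)) ≤ 1 := Real.exp_le_one_iff.2 (by
      have : 0 ≤ c1 ^ 2 / 16 / lam := by positivity
      linarith)
    refine ⟨fun x => (g1 x).trans (by linarith), ?_⟩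
    have e : 8 * δ = η := by rw [hδ]; ring
    rw [← e]
    exact g2

end Pool.Agent.U874.Tr
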